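import Mathlib
import Pool.Agent.helper71.XY.Defs
import Pool.Agent.helper71.XY.Cone

/-!
# The normalised surface measure on the sphere and its symmetries
-/

set_option linter.unusedSectionVars false

open MeasureTheory
open scoped ENNReal Pointwise

namespace Pool.Agent.helper21.ON

open Pool.Agent.helper71.XY.Defs
open Pool.Agent.helper71.XY (integrable_of_continuous)

variable {N : ℕ}

/-- the map of the sphere given by a linear isometry -/
noncomputable def isoS (L : EuclideanSpace ℝ (Fin N) ≃ₗᵢ[ℝ] EuclideanSpace ℝ (Fin N))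
    (s : Sph N) : Sph N :=
  ⟨L (s : EuclideanSpace ℝ (Fin N)), by
    rw [mem_sphere_zero_iff_norm, LinearIsometryEquiv.norm_map]
    exact mem_sphere_zero_iff_norm.1 s.2⟩

lemma continuous_isoS (L : EuclideanSpace ℝ (Fin N) ≃ₗᵢ[ℝ] EuclideanSpace ℝ (Fin N)) :
    Continuous (isoS L) := by
  unfold isoS
  apply Continuous.subtype_mk
  exact L.continuous.comp continuous_subtype_val

lemma surf_isoS (L : EuclideanSpace ℝ (Fin N) ≃ₗᵢ[ℝ] EuclideanSpace ℝ (Fin N))
    {s : Set (Sph N)} (hs : MeasurableSet s) : surf N (isoS L ⁻¹' s) = surf N s := by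
  have hc : Measurable (isoS L) := (continuous_isoS L).measurable
  have hs' : MeasurableSet (isoS L ⁻¹' s) := hc hs
  rw [surf, Measure.toSphere_apply' _ hs', Measure.toSphere_apply' _ hs]
  congr 1
  have hset : (Set.Ioo (0 : ℝ) 1 • ((↑) '' (isoS L ⁻¹' s)) : Set (EuclideanSpace ℝ (Fin N)))
      = L ⁻¹' (Set.Ioo (0 : ℝ) 1 • ((↑) '' s)) := by
    ext v
    simp only [Set.mem_smul, Set.mem_image, Set.mem_preimage, Set.mem_Ioo]
    constructor
    · rintro ⟨r, hr, _, ⟨t, ht, rfl⟩, rfl⟩
      exact ⟨r, hr, _, ⟨isoS L t, ht, rfl⟩, by simp [isoS]⟩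
    · rintro ⟨r, hr, _, ⟨t, ht, rfl⟩, hv⟩
      refine ⟨r, hr, L.symm t, ⟨⟨L.symm t, ?_⟩, ?_, rfl⟩, ?_⟩
      · rw [mem_sphere_zero_iff_norm, LinearIsometryEquiv.norm_map]
        exact mem_sphere_zero_iff_norm.1 t.2
      · have : isoS L ⟨L.symm t, by
            rw [mem_sphere_zero_iff_norm, LinearIsometryEquiv.norm_map]
            exact mem_sphere_zero_iff_norm.1 t.2⟩ = t := by
          apply Subtype.ext
          simp [isoS]
        rw [this]
        exact ht
      · apply L.injective
        rw [map_smul, LinearIsometryEquiv.apply_symm_apply]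
        exact hv
  rw [hset]
  exact (LinearIsometryEquiv.measurePreserving L).measure_preimage_emb
    L.toHomeomorph.measurableEmbedding _

/-- the normalised surface measure -/
noncomputable def nu (N : ℕ) : Measure (Sph N) := (surf N Set.univ)⁻¹ • surf N

lemma surf_univ_ne_top : surf N Set.univ ≠ ⊤ := measure_ne_top _ _

lemma surf_univ_ne_zero [NeZero N] : surf N Set.univ ≠ 0 := by
  have : Nonempty (Fin N) := ⟨0⟩
  rw [Ne, Measure.measure_univ_eq_zero]
  exact Measure.toSphere_ne_zero _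

instance [NeZero N] : IsProbabilityMeasure (nu N) := by
  constructor
  rw [nu, Measure.smul_apply, smul_eq_mul]
  exact ENNReal.inv_mul_cancel surf_univ_ne_zero surf_univ_ne_top

lemma mp_isoS (L : EuclideanSpace ℝ (Fin N) ≃ₗᵢ[ℝ] EuclideanSpace ℝ (Fin N)) :
    MeasurePreserving (isoS L) (nu N) (nu N) := by
  refine ⟨(continuous_isoS L).measurable, ?_⟩
  ext s hs
  rw [Measure.map_apply (continuous_isoS L).measurable hs, nu, Measure.smul_apply,
    Measure.smul_apply, surf_isoS L hs]

lemma dot_isoS (L : EuclideanSpace ℝ (Fin N) ≃ₗᵢ[ℝ] EuclideanSpace ℝ (Fin N)) (s t : Sph N) :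
    dot (isoS L s) (isoS L t) = dot s t := by
  unfold dot isoS
  exact L.inner_map_map _ _

lemma surf_eq_smul [NeZero N] : surf N = surf N Set.univ • nu N := by
  rw [nu, smul_smul, ENNReal.mul_inv_cancel surf_univ_ne_zero surf_univ_ne_top, one_smul]

/-- coordinates -/
noncomputable def co (a : Fin N) (s : Sph N) : ℝ := (s : EuclideanSpace ℝ (Fin N)) a

lemma continuous_co (a : Fin N) : Continuous (co a) := by
  unfold co
  fun_prop

lemma dot_eq_sum (s t : Sph N) : dot s t = ∑ a, co a s * co a t := by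
  unfold dot co
  rw [PiLp.inner_apply]
  refine Finset.sum_congr rfl fun a _ => ?_
  simp [mul_comm]

lemma dot_self (s : Sph N) : dot s s = 1 := by
  unfold dot
  rw [real_inner_self_eq_norm_sq, mem_sphere_zero_iff_norm.1 s.2, one_pow]

lemma dot_le_one (s t : Sph N) : dot s t ≤ 1 := by
  have h := real_inner_le_norm (s : EuclideanSpace ℝ (Fin N)) t
  rw [mem_sphere_zero_iff_norm.1 s.2, mem_sphere_zero_iff_norm.1 t.2] at h
  rw [mul_one] at h
  exact h

lemma abs_dot_le_one (s t : Sph N) : |dot s t| ≤ 1 := by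
  have h := abs_real_inner_le_norm (s : EuclideanSpace ℝ (Fin N)) t
  rw [mem_sphere_zero_iff_norm.1 s.2, mem_sphere_zero_iff_norm.1 t.2] at h
  rw [mul_one] at h
  exact h

/-- swapping two coordinates -/
noncomputable def swapL (a b : Fin N) :
    EuclideanSpace ℝ (Fin N) ≃ₗᵢ[ℝ] EuclideanSpace ℝ (Fin N) :=
  LinearIsometryEquiv.piLpCongrLeft 2 ℝ ℝ (Equiv.swap a b)

lemma co_swapL (a b : Fin N) (s : Sph N) : co b (isoS (swapL a b) s) = co a s := by
  unfold co isoS swapL
  simp [LinearIsometryEquiv.piLpCongrLeft_apply]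

/-- reflection of one coordinate -/
noncomputable def reflL (a : Fin N) :
    EuclideanSpace ℝ (Fin N) ≃ₗᵢ[ℝ] EuclideanSpace ℝ (Fin N) :=
  LinearIsometryEquiv.piLpCongrRight 2 fun i =>
    if i = a then LinearIsometryEquiv.neg ℝ else LinearIsometryEquiv.refl ℝ ℝ

lemma co_reflL (a b : Fin N) (s : Sph N) :
    co b (isoS (reflL a) s) = (if b = a then -1 else 1) * co b s := by
  unfold co isoS reflL
  split_ifs with h
  · subst h
    simp [LinearIsometryEquiv.piLpCongrRight]
  · simp [LinearIsometryEquiv.piLpCongrRight, h]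

end Pool.Agent.helper21.ON
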