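import Mathlib
import Pool.Agent.helper21.ON.Sym

/-!
# One and two copies of the `O(N)` model
-/

set_option linter.unusedSectionVars false

open MeasureTheory

namespace Pool.Agent.helper21.ON

open Pool.Agent.helper71.XY.Defs
open Pool.Agent.helper71.XY (integrable_of_continuous)

variable {N : ℕ} [NeZero N] {V : Type} [Fintype V] [DecidableEq V]

/-- one copy product measure -/
noncomputable abbrev P1 (N : ℕ) (V : Type) [Fintype V] : Measure (V → Sph N) :=
  Measure.pi fun _ => nu N

/-- two-copy product measure -/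
noncomputable abbrev P2 (N : ℕ) (V : Type) [Fintype V] : Measure (V → Sph N × Sph N) :=
  Measure.pi fun _ => (nu N).prod (nu N)

/-- the Gibbs weight -/
noncomputable def W (J : V → V → ℝ) (σ : V → Sph N) : ℝ :=
  Real.exp ((1 / 2) * ∑ x, ∑ j, J x j * dot (σ x) (σ j))

lemma continuous_dot' (x y : V) : Continuous fun σ : V → Sph N => dot (σ x) (σ y) := by
  unfold dot
  fun_prop

lemma continuous_W (J : V → V → ℝ) : Continuous (W (N := N) J) := by
  unfold W
  have := continuous_dot' (N := N) (V := V)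
  fun_prop

/-- unnormalised expectation -/
noncomputable def II (J : V → V → ℝ) (f : (V → Sph N) → ℝ) : ℝ :=
  ∫ σ, W J σ * f σ ∂(P1 N V)

lemma II_integrable (J : V → V → ℝ) {f : (V → Sph N) → ℝ} (hf : Continuous f) :
    Integrable (fun σ => W J σ * f σ) (P1 N V) :=
  integrable_of_continuous _ ((continuous_W J).mul hf)

lemma II_pos (J : V → V → ℝ) : 0 < II (N := N) J fun _ => 1 := by
  unfold II
  simp only [mul_one]
  have hi : Integrable (fun σ => W J σ) (P1 N V) :=
    integrable_of_continuous _ (continuous_W J)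
  exact integral_exp_pos hi

lemma II_const_mul (J : V → V → ℝ) (c : ℝ) (f : (V → Sph N) → ℝ) :
    II J (fun σ => c * f σ) = c * II J f := by
  unfold II
  rw [← integral_const_mul]
  congr 1
  funext σ
  ring

lemma II_sum (J : V → V → ℝ) {κ : Type*} (s : Finset κ) (f : κ → (V → Sph N) → ℝ)
    (hf : ∀ k, Continuous (f k)) :
    II J (fun σ => ∑ k ∈ s, f k σ) = ∑ k ∈ s, II J (f k) := by
  unfold II
  simp only [Finset.mul_sum]
  exact integral_finsetSum _ fun k _ => II_integrable J (hf k)

lemma W_iso (J : V → V → ℝ)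
    (L : EuclideanSpace ℝ (Fin N) ≃ₗᵢ[ℝ] EuclideanSpace ℝ (Fin N)) (σ : V → Sph N) :
    W J (fun x => isoS L (σ x)) = W J σ := by
  unfold W
  simp only [dot_isoS]

lemma II_iso (J : V → V → ℝ)
    (L : EuclideanSpace ℝ (Fin N) ≃ₗᵢ[ℝ] EuclideanSpace ℝ (Fin N))
    (f : (V → Sph N) → ℝ) (hf : Continuous f) :
    II J f = II J fun σ => f fun x => isoS L (σ x) := by
  have h := measurePreserving_pi (fun _ : V => nu N) (fun _ : V => nu N)
    (f := fun _ => isoS L) fun _ => mp_isoS L
  have hc : Continuous fun σ => W J σ * f σ := (continuous_W J).mul hf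
  unfold II
  conv_lhs => rw [P1, ← h.map_eq]
  rw [integral_map (f := fun σ => W J σ * f σ) h.measurable.aemeasurable
    hc.aestronglyMeasurable]
  simp_rw [W_iso]

/-- coordinate correlations -/
noncomputable def Ic (J : V → V → ℝ) (a b : Fin N) (x y : V) : ℝ :=
  II J fun σ => co a (σ x) * co b (σ y)

lemma continuous_co' (a : Fin N) (x : V) : Continuous fun σ : V → Sph N => co a (σ x) :=
  (continuous_co a).comp (continuous_apply x)

lemma Ic_off (J : V → V → ℝ) {a b : Fin N} (hab : a ≠ b) (x y : V) : Ic J a b x y = 0 := by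
  have h := II_iso J (reflL a) (fun σ => co a (σ x) * co b (σ y))
    ((continuous_co' a x).mul (continuous_co' b y))
  have h2 : (fun σ : V → Sph N => co a (isoS (reflL a) (σ x)) * co b (isoS (reflL a) (σ y)))
      = fun σ => (-1) * (co a (σ x) * co b (σ y)) := by
    funext σ
    rw [co_reflL, co_reflL, if_pos rfl, if_neg (Ne.symm hab)]
    ring
  rw [h2, II_const_mul] at h
  unfold Ic
  linarith

lemma Ic_diag (J : V → V → ℝ) (a b : Fin N) (x y : V) : Ic J a a x y = Ic J b b x y := by
  have h := II_iso J (swapL a b) (fun σ => co b (σ x) * co b (σ y))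
    ((continuous_co' b x).mul (continuous_co' b y))
  simp only [co_swapL] at h
  exact h.symm

/-- unnormalised two point function -/
noncomputable def Id (J : V → V → ℝ) (x y : V) : ℝ := II (N := N) J fun σ => dot (σ x) (σ y)

lemma Id_eq (J : V → V → ℝ) (a : Fin N) (x y : V) :
    Id (N := N) J x y = N * Ic J a a x y := by
  unfold Id
  simp only [dot_eq_sum]
  rw [II_sum J _ (fun a (σ : V → Sph N) => co a (σ x) * co a (σ y))
    (fun a => (continuous_co' a x).mul (continuous_co' a y))]
  have : ∀ b ∈ Finset.univ, II J (fun σ => co b (σ x) * co b (σ y)) = Ic J a a x y :=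
    fun b _ => Ic_diag J b a x y
  rw [Finset.sum_congr rfl this]
  simp

lemma Ic_eq (J : V → V → ℝ) (a b : Fin N) (x y : V) :
    Ic J a b x y = if a = b then Id (N := N) J x y / N else 0 := by
  split_ifs with h
  · subst h
    rw [Id_eq J a]
    have : (N : ℝ) ≠ 0 := Nat.cast_ne_zero.2 (NeZero.ne N)
    field_simp
  · exact Ic_off J h x y

lemma Id_comm (J : V → V → ℝ) (x y : V) : Id (N := N) J x y = Id (N := N) J y x := by
  unfold Id
  congr 1
  funext σ
  exact dot_comm _ _

lemma Id_self (J : V → V → ℝ) (x : V) : Id (N := N) J x x = II (N := N) J fun _ => 1 := by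
  unfold Id
  simp only [dot_self]

/-! ### two copies -/

/-- `σ_x·σ_j + σ'_x·σ'_j` -/
noncomputable def U (ω : V → Sph N × Sph N) (x j : V) : ℝ :=
  dot (ω x).1 (ω j).1 + dot (ω x).2 (ω j).2

/-- `σ_x·σ'_j - σ'_x·σ_j` -/
noncomputable def D (ω : V → Sph N × Sph N) (x j : V) : ℝ :=
  dot (ω x).1 (ω j).2 - dot (ω x).2 (ω j).1

lemma continuous_U (x j : V) : Continuous fun ω : V → Sph N × Sph N => U ω x j := by
  unfold U dot
  fun_prop

lemma continuous_D (x j : V) : Continuous fun ω : V → Sph N × Sph N => D ω x j := by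
  unfold D dot
  fun_prop

/-- the twisted two-copy interaction -/
noncomputable def TA (J A : V → V → ℝ) (ω : V → Sph N × Sph N) : ℝ :=
  (1 / 2) * ∑ x, ∑ j, J x j * (Real.cos (A x j) * U ω x j - Real.sin (A x j) * D ω x j)

/-- the untwisted interaction -/
noncomputable abbrev T0 (J : V → V → ℝ) : (V → Sph N × Sph N) → ℝ := TA J fun _ _ => 0

lemma continuous_TA (J A : V → V → ℝ) : Continuous (TA (N := N) J A) := by
  unfold TA
  have h1 := continuous_U (V := V) (N := N)
  have h2 := continuous_D (V := V) (N := N)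
  fun_prop

lemma T0_eq (J : V → V → ℝ) (ω : V → Sph N × Sph N) :
    Real.exp (T0 J ω) = W J (fun x => (ω x).1) * W J (fun x => (ω x).2) := by
  unfold W
  rw [← Real.exp_add]
  congr 1
  unfold T0 TA U
  rw [← mul_add, ← Finset.sum_add_distrib]
  congr 1
  refine Finset.sum_congr rfl fun x _ => ?_
  rw [← Finset.sum_add_distrib]
  refine Finset.sum_congr rfl fun j _ => ?_
  rw [Real.cos_zero, Real.sin_zero]
  ring

/-- unnormalised two-copy expectation -/
noncomputable def E2 (J : V → V → ℝ) (f : (V → Sph N × Sph N) → ℝ) : ℝ :=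
  ∫ ω, Real.exp (T0 J ω) * f ω ∂(P2 N V)

lemma E2_integrable (J : V → V → ℝ) {f : (V → Sph N × Sph N) → ℝ} (hf : Continuous f) :
    Integrable (fun ω => Real.exp (T0 J ω) * f ω) (P2 N V) :=
  integrable_of_continuous _ ((Real.continuous_exp.comp (continuous_TA J _)).mul hf)

lemma E2_add (J : V → V → ℝ) (f g : (V → Sph N × Sph N) → ℝ) (hf : Continuous f)
    (hg : Continuous g) : E2 J (fun ω => f ω + g ω) = E2 J f + E2 J g := by
  unfold E2
  simp only [mul_add]
  exact integral_add (E2_integrable J hf) (E2_integrable J hg)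

lemma E2_sub (J : V → V → ℝ) (f g : (V → Sph N × Sph N) → ℝ) (hf : Continuous f)
    (hg : Continuous g) : E2 J (fun ω => f ω - g ω) = E2 J f - E2 J g := by
  unfold E2
  simp only [mul_sub]
  exact integral_sub (E2_integrable J hf) (E2_integrable J hg)

lemma E2_const_mul (J : V → V → ℝ) (c : ℝ) (f : (V → Sph N × Sph N) → ℝ) :
    E2 J (fun ω => c * f ω) = c * E2 J f := by
  unfold E2
  rw [← integral_const_mul]
  congr 1
  funext θ
  ring

lemma E2_sum (J : V → V → ℝ) {κ : Type*} (s : Finset κ) (f : κ → (V → Sph N × Sph N) → ℝ)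
    (hf : ∀ k, Continuous (f k)) :
    E2 J (fun ω => ∑ k ∈ s, f k ω) = ∑ k ∈ s, E2 J (f k) := by
  unfold E2
  simp only [Finset.mul_sum]
  exact integral_finsetSum _ fun k _ => E2_integrable J (hf k)

lemma E2_mono (J : V → V → ℝ) {f g : (V → Sph N × Sph N) → ℝ} (hf : Continuous f)
    (hg : Continuous g) (h : ∀ ω, f ω ≤ g ω) : E2 J f ≤ E2 J g := by
  unfold E2
  apply integral_mono (E2_integrable J hf) (E2_integrable J hg)
  intro θ
  exact mul_le_mul_of_nonneg_left (h θ) (Real.exp_pos _).le

lemma E2_prod (J : V → V → ℝ) (f g : (V → Sph N) → ℝ) :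
    E2 J (fun ω => f (fun x => (ω x).1) * g (fun x => (ω x).2)) = II J f * II J g := by
  have h := measurePreserving_arrowProdEquivProdArrow (Sph N) (Sph N) V (fun _ => nu N)
    (fun _ => nu N)
  have h2 := h.integral_comp' (g := fun p : (V → Sph N) × (V → Sph N) =>
    (W J p.1 * f p.1) * (W J p.2 * g p.2))
  rw [integral_prod_mul (f := fun θ : V → Sph N => W J θ * f θ)
    (g := fun θ : V → Sph N => W J θ * g θ)] at h2
  unfold II E2
  rw [← h2]
  congr 1
  funext ω
  rw [T0_eq]
  simp only [MeasurableEquiv.arrowProdEquivProdArrow, MeasurableEquiv.coe_mk,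
    Equiv.arrowProdEquivProdArrow, Equiv.coe_fn_mk]
  ring

/-- a product of four coordinates -/
noncomputable def Q4 (a b : Fin N) (z x y j : V) (ω : V → Sph N × Sph N) : ℝ :=
  (co a (ω z).1 * co b (ω x).1) * (co a (ω y).2 * co b (ω j).2)

lemma continuous_Q4 (a b : Fin N) (z x y j : V) : Continuous (Q4 a b z x y j) := by
  unfold Q4
  have h1 : ∀ (a : Fin N) (x : V), Continuous fun ω : V → Sph N × Sph N => co a (ω x).1 :=
    fun a x => (continuous_co a).comp (continuous_fst.comp (continuous_apply x))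
  have h2 : ∀ (a : Fin N) (x : V), Continuous fun ω : V → Sph N × Sph N => co a (ω x).2 :=
    fun a x => (continuous_co a).comp (continuous_snd.comp (continuous_apply x))
  exact ((h1 a z).mul (h1 b x)).mul ((h2 a y).mul (h2 b j))

lemma E2_Q4 (J : V → V → ℝ) (a b : Fin N) (z x y j : V) :
    E2 J (Q4 a b z x y j) = Ic J a b z x * Ic J a b y j :=
  E2_prod J (fun σ => co a (σ z) * co b (σ x)) (fun σ => co a (σ y) * co b (σ j))

lemma D_mul_D (ω : V → Sph N × Sph N) (z y x j : V) :
    D ω z y * D ω x j = ∑ a, ∑ b, (Q4 a b z x y j ω - Q4 a b z j y x ω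
      - Q4 a b y x z j ω + Q4 a b y j z x ω) := by
  unfold D Q4
  simp only [dot_eq_sum]
  rw [← Finset.sum_sub_distrib, ← Finset.sum_sub_distrib, Finset.sum_mul]
  refine Finset.sum_congr rfl fun a _ => ?_
  rw [Finset.mul_sum]
  refine Finset.sum_congr rfl fun b _ => ?_
  ring

lemma E2_DD (J : V → V → ℝ) (z y x j : V) :
    E2 (N := N) J (fun ω => D ω z y * D ω x j)
      = 2 / N * (Id (N := N) J z x * Id (N := N) J y j
        - Id (N := N) J z j * Id (N := N) J y x) := by
  have hN : (N : ℝ) ≠ 0 := Nat.cast_ne_zero.2 (NeZero.ne N)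
  have hQ := continuous_Q4 (N := N) (V := V)
  simp only [D_mul_D]
  rw [E2_sum J _ (fun a ω => ∑ b, (Q4 a b z x y j ω - Q4 a b z j y x ω
      - Q4 a b y x z j ω + Q4 a b y j z x ω))
    (fun a => continuous_finsetSum _ fun b _ =>
      (((hQ a b z x y j).sub (hQ a b z j y x)).sub (hQ a b y x z j)).add (hQ a b y j z x))]
  have h1 : ∀ a : Fin N, E2 J (fun ω => ∑ b, (Q4 a b z x y j ω - Q4 a b z j y x ω
      - Q4 a b y x z j ω + Q4 a b y j z x ω))
      = 2 / N ^ 2 * (Id (N := N) J z x * Id (N := N) J y j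
        - Id (N := N) J z j * Id (N := N) J y x) := by
    intro a
    rw [E2_sum J _ (fun b ω => (Q4 a b z x y j ω - Q4 a b z j y x ω
      - Q4 a b y x z j ω + Q4 a b y j z x ω)) (fun b =>
      (((hQ a b z x y j).sub (hQ a b z j y x)).sub (hQ a b y x z j)).add (hQ a b y j z x))]
    have h2 : ∀ b : Fin N, E2 J (fun ω => Q4 a b z x y j ω - Q4 a b z j y x ω
      - Q4 a b y x z j ω + Q4 a b y j z x ω)
        = if a = b then 2 / N ^ 2 * (Id (N := N) J z x * Id (N := N) J y j
        - Id (N := N) J z j * Id (N := N) J y x) else 0 := by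
      intro b
      rw [E2_add J (fun ω => Q4 a b z x y j ω - Q4 a b z j y x ω - Q4 a b y x z j ω)
          (Q4 a b y j z x) (((hQ a b z x y j).sub (hQ a b z j y x)).sub (hQ a b y x z j))
          (hQ a b y j z x),
        E2_sub J (fun ω => Q4 a b z x y j ω - Q4 a b z j y x ω) (Q4 a b y x z j)
          ((hQ a b z x y j).sub (hQ a b z j y x)) (hQ a b y x z j),
        E2_sub J _ _ (hQ a b z x y j) (hQ a b z j y x), E2_Q4, E2_Q4, E2_Q4, E2_Q4]
      simp only [Ic_eq]
      split_ifs with h
      · rw [Id_comm J y j, Id_comm J z x, Id_comm J y x, Id_comm J z j]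
        field_simp
        ring
      · ring
    simp only [h2, Finset.sum_ite_eq, Finset.mem_univ, if_true]
  simp only [h1, Finset.sum_const, Finset.card_univ, Fintype.card_fin, nsmul_eq_mul]
  field_simp

end Pool.Agent.helper21.ON
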