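import Mathlib
import Pool.Agent.helper21.ON.Second

/-!
# The key inequality for the `O(N)` model, assuming the twist inequality
-/

set_option linter.unusedSectionVars false

open MeasureTheory

namespace Pool.Agent.helper21.ON

open Pool.Agent.helper71.XY.Defs
open Pool.Agent.helper71.XY (integrable_of_continuous)

variable {N : ℕ} [NeZero N] {V : Type} [Fintype V] [DecidableEq V]

lemma E2_nonneg (J : V → V → ℝ) {f : (V → Sph N × Sph N) → ℝ} (h : ∀ ω, 0 ≤ f ω) :
    0 ≤ E2 J f :=
  integral_nonneg fun ω => mul_nonneg (Real.exp_pos _).le (h ω)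

lemma E2_DL (J k : V → V → ℝ) (z y : V) :
    E2 (N := N) J (fun ω => D ω z y * L J k ω)
      = (1 / 2) * ∑ x, ∑ j, J x j * k x j * E2 (N := N) J (fun ω => D ω z y * D ω x j) := by
  have h1 : (fun ω : V → Sph N × Sph N => D ω z y * L J k ω)
      = fun ω => (1 / 2) * ∑ x, ∑ j, J x j * k x j * (D ω z y * D ω x j) := by
    funext ω
    unfold L
    simp only [Finset.mul_sum]
    refine Finset.sum_congr rfl fun x _ => Finset.sum_congr rfl fun j _ => ?_
    ring
  have hD := continuous_D (V := V) (N := N)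
  rw [h1, E2_const_mul, E2_sum J _ (fun x ω => ∑ j, J x j * k x j * (D ω z y * D ω x j))
    (fun x => continuous_finsetSum _ fun j _ => continuous_const.mul ((hD z y).mul (hD x j)))]
  congr 1
  refine Finset.sum_congr rfl fun x _ => ?_
  rw [E2_sum J _ (fun j ω => J x j * k x j * (D ω z y * D ω x j))
    (fun j => continuous_const.mul ((hD z y).mul (hD x j)))]
  refine Finset.sum_congr rfl fun j _ => ?_
  rw [E2_const_mul]

lemma E2_U (J : V → V → ℝ) (x j : V) :
    E2 (N := N) J (fun ω => U ω x j)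
      = 2 * (Id (N := N) J x j * II (N := N) J fun _ => 1) := by
  have h1 := E2_prod (N := N) J (fun σ => dot (σ x) (σ j)) (fun _ => 1)
  have h2 := E2_prod (N := N) J (fun _ => 1) (fun σ => dot (σ x) (σ j))
  simp only [mul_one, one_mul] at h1 h2
  have hc1 : Continuous fun ω : V → Sph N × Sph N => dot (ω x).1 (ω j).1 := by
    unfold dot
    fun_prop
  have hc2 : Continuous fun ω : V → Sph N × Sph N => dot (ω x).2 (ω j).2 := by
    unfold dot
    fun_prop
  unfold U
  rw [E2_add J _ _ hc1 hc2, h1, h2]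
  unfold Id
  ring

lemma E2_Q (J k : V → V → ℝ) :
    E2 (N := N) J (Q J k) = (II (N := N) J fun _ => 1) *
      ∑ x, ∑ j, J x j * k x j ^ 2 * Id (N := N) J x j := by
  have hU := continuous_U (V := V) (N := N)
  have h1 : (Q J k : (V → Sph N × Sph N) → ℝ)
      = fun ω => (1 / 2) * ∑ x, ∑ j, J x j * k x j ^ 2 * U ω x j := by
    funext ω
    rfl
  rw [h1, E2_const_mul, E2_sum J _ (fun x ω => ∑ j, J x j * k x j ^ 2 * U ω x j)
    (fun x => continuous_finsetSum _ fun j _ => continuous_const.mul (hU x j))]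
  rw [Finset.mul_sum, Finset.mul_sum]
  refine Finset.sum_congr rfl fun x _ => ?_
  rw [E2_sum J _ (fun j ω => J x j * k x j ^ 2 * U ω x j)
    (fun j => continuous_const.mul (hU x j))]
  rw [Finset.mul_sum, Finset.mul_sum]
  refine Finset.sum_congr rfl fun j _ => ?_
  rw [E2_const_mul, E2_U]
  ring

/-- normalised two point function of the unpinned model -/
noncomputable def cc (N : ℕ) [NeZero N] (J : V → V → ℝ) (x y : V) : ℝ :=
  Id (N := N) J x y / II (N := N) J fun _ => 1

lemma cc_self (J : V → V → ℝ) (x : V) : cc N J x x = 1 := by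
  unfold cc
  rw [Id_self]
  exact div_self (II_pos (N := N) J).ne'

lemma cc_comm (J : V → V → ℝ) (x y : V) : cc N J x y = cc N J y x := by
  unfold cc
  rw [Id_comm]

lemma II_mono (J : V → V → ℝ) {f g : (V → Sph N) → ℝ} (hf : Continuous f)
    (hg : Continuous g) (h : ∀ σ, f σ ≤ g σ) : II J f ≤ II J g := by
  unfold II
  apply integral_mono (II_integrable J hf) (II_integrable J hg)
  intro σ
  exact mul_le_mul_of_nonneg_left (h σ) (Real.exp_pos _).le

lemma cc_le_one (J : V → V → ℝ) (x y : V) : cc N J x y ≤ 1 := by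
  unfold cc
  rw [div_le_one (II_pos (N := N) J)]
  exact II_mono J (continuous_dot' x y) continuous_const fun σ => dot_le_one _ _

lemma Id_eq_cc (J : V → V → ℝ) (x y : V) :
    Id (N := N) J x y = (II (N := N) J fun _ => 1) * cc N J x y := by
  unfold cc
  have := (II_pos (N := N) J).ne'
  field_simp

/-- The key inequality. -/
theorem key (J : V → V → ℝ) (hJ : ∀ x j, 0 ≤ J x j) (hT : Twist N J) (z y : V) :
    ∑ x, ∑ j, J x j * (cc N J z x * cc N J y j - cc N J z j * cc N J y x) ^ 2
      ≤ 2 * N * (1 - cc N J z y ^ 2) := by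
  have hZ := II_pos (N := N) J
  have hN0 : (N : ℝ) ≠ 0 := Nat.cast_ne_zero.2 (NeZero.ne N)
  set Z := II (N := N) J fun _ => 1 with hZdef
  set k : V → V → ℝ := fun x j => cc N J z x * cc N J y j - cc N J z j * cc N J y x with hk
  set S := ∑ x, ∑ j, J x j * k x j ^ 2 with hS
  have h2 := second_order J k hT
  have hDD : ∀ x j, E2 (N := N) J (fun ω => D ω z y * D ω x j) = 2 / N * (Z ^ 2 * k x j) := by
    intro x j
    rw [E2_DD]
    simp only [Id_eq_cc, hk]
    rw [← hZdef]
    ring
  have hDL : E2 (N := N) J (fun ω => D ω z y * L J k ω) = Z ^ 2 / N * S := by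
    rw [E2_DL, hS, Finset.mul_sum, Finset.mul_sum]
    refine Finset.sum_congr rfl fun x _ => ?_
    rw [Finset.mul_sum, Finset.mul_sum]
    refine Finset.sum_congr rfl fun j _ => ?_
    rw [hDD]
    ring
  have hD2 : E2 (N := N) J (fun ω => D ω z y * D ω z y)
      = 2 / N * (Z ^ 2 * (1 - cc N J z y ^ 2)) := by
    rw [hDD]
    simp only [hk, cc_self, cc_comm J y z]
    ring
  have hQ : E2 (N := N) J (Q J k) ≤ Z ^ 2 * S := by
    rw [E2_Q, ← hZdef, pow_two Z, mul_assoc]
    apply mul_le_mul_of_nonneg_left _ hZ.le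
    rw [hS, Finset.mul_sum]
    refine Finset.sum_le_sum fun x _ => ?_
    rw [Finset.mul_sum]
    refine Finset.sum_le_sum fun j _ => ?_
    rw [Id_eq_cc, ← hZdef]
    have h1 := cc_le_one (N := N) J x j
    have h3 : 0 ≤ J x j * k x j ^ 2 * Z := mul_nonneg (mul_nonneg (hJ x j) (sq_nonneg _)) hZ.le
    nlinarith
  have hLc := continuous_L (N := N) J k
  have hDc := continuous_D (N := N) z y
  have hpos : 0 ≤ E2 (N := N) J (fun ω => (L J k ω ^ 2 - (2 * N) * (D ω z y * L J k ω))
      + (N : ℝ) ^ 2 * (D ω z y * D ω z y)) := by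
    apply E2_nonneg
    intro ω
    have : 0 ≤ (L J k ω - N * D ω z y) ^ 2 := sq_nonneg _
    linarith
  rw [E2_add J (fun ω => (L J k ω ^ 2 - (2 * N) * (D ω z y * L J k ω)))
      (fun ω => (N : ℝ) ^ 2 * (D ω z y * D ω z y))
      ((hLc.pow 2).sub (continuous_const.mul (hDc.mul hLc)))
      (continuous_const.mul (hDc.mul hDc)),
    E2_sub J (fun ω => L J k ω ^ 2) (fun ω => (2 * N) * (D ω z y * L J k ω))
      (hLc.pow 2) (continuous_const.mul (hDc.mul hLc)),
    E2_const_mul, E2_const_mul, hDL, hD2] at hpos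
  have h5 : 0 ≤ Z ^ 2 * S - 2 * N * (Z ^ 2 / N * S)
      + (N : ℝ) ^ 2 * (2 / N * (Z ^ 2 * (1 - cc N J z y ^ 2))) := by
    linarith
  have h6 : Z ^ 2 * S - 2 * N * (Z ^ 2 / N * S)
      + (N : ℝ) ^ 2 * (2 / N * (Z ^ 2 * (1 - cc N J z y ^ 2)))
      = Z ^ 2 * (2 * N * (1 - cc N J z y ^ 2) - S) := by
    field_simp
    ring
  rw [h6] at h5
  have h7 : 0 ≤ 2 * N * (1 - cc N J z y ^ 2) - S :=
    nonneg_of_mul_nonneg_right h5 (by positivity)
  linarith

lemma cc_sq_le_one (J : V → V → ℝ) (x y : V) : cc N J x y ^ 2 ≤ 1 := by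
  have h1 := cc_le_one (N := N) J x y
  have h2 : -1 ≤ cc N J x y := by
    unfold cc
    rw [le_div_iff₀ (II_pos (N := N) J)]
    have h3 : II (N := N) J (fun _ => (-1) * 1) ≤ II (N := N) J fun σ => dot (σ x) (σ y) :=
      II_mono J continuous_const (continuous_dot' x y) fun σ => by
        have := (abs_le.1 (abs_dot_le_one (σ x) (σ y))).1
        linarith
    rw [II_const_mul] at h3
    exact h3
  nlinarith

end Pool.Agent.helper21.ON
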