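import Mathlib
import Pool.Agent.helper21.ON.Key
import Pool.Agent.helper36.IsingRes
import Pool.Agent.helper71.XY.Boot

/-!
# The continuity argument for the `O(N)` model, assuming the twist inequality
-/

set_option linter.unusedSectionVars false

open MeasureTheory
open scoped ENNReal

namespace Pool.Agent.helper21.ON

open Pool.Agent.helper71.XY.Defs
open Pool.Agent.helper71.XY (integrable_of_continuous JH JH_nonneg)
open Pool.Agent.helper36.IsingDefs Pool.Agent.helper36.IsingRes

variable {N : ℕ} [NeZero N] {V : Type} [Fintype V] [DecidableEq V]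

lemma continuous_II (G : SimpleGraph V) [DecidableRel G.Adj] (β : ℝ) (y : V)
    {f : (V → Sph N) → ℝ} (hf : Continuous f) :
    Continuous fun H : ℝ => II (JH G β y H) f := by
  have h1 : Continuous (Function.uncurry fun (H : ℝ) (σ : V → Sph N) =>
      W (JH G β y H) σ * f σ) := by
    apply Continuous.mul
    · change Continuous fun p : ℝ × (V → Sph N) => W (JH G β y p.1) p.2
      unfold W JH
      have hd : ∀ x j, Continuous fun p : ℝ × (V → Sph N) => dot (p.2 x) (p.2 j) :=
        fun x j => (continuous_dot' x j).comp continuous_snd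
      fun_prop
    · exact hf.comp continuous_snd
  have h2 := continuous_parametric_integral_of_continuous (μ := P1 N V) h1
    (s := Set.univ) isCompact_univ
  simpa [Measure.restrict_univ, II] using h2

lemma continuous_cc (G : SimpleGraph V) [DecidableRel G.Adj] (β : ℝ) (y z : V) :
    Continuous fun H : ℝ => cc N (JH G β y H) z y := by
  unfold cc Id
  apply Continuous.div
  · exact continuous_II G β y (continuous_dot' z y)
  · exact continuous_II G β y continuous_const
  · intro H
    exact (II_pos _).ne'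

lemma apriori (G : SimpleGraph V) [DecidableRel G.Adj] {β H : ℝ}
    (hβ : 0 ≤ β) (hH : 0 ≤ H) (y z : V) (hT : Twist N (JH G β y H)) :
    H * (1 - cc N (JH G β y H) z y ^ 2) ≤ 2 * N := by
  set J := JH G β y H with hJdef
  have hJ : ∀ x j, 0 ≤ J x j := JH_nonneg G hβ hH y
  have hk := key J hJ hT z y
  have h0 : 0 ≤ 1 - cc N J z y ^ 2 := by
    have := cc_sq_le_one (N := N) J z y
    linarith
  have h1 : J z y * (cc N J z z * cc N J y y - cc N J z y * cc N J y z) ^ 2
      ≤ ∑ x, ∑ j, J x j * (cc N J z x * cc N J y j - cc N J z j * cc N J y x) ^ 2 := by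
    have h2 : ∀ x j, 0 ≤ J x j * (cc N J z x * cc N J y j - cc N J z j * cc N J y x) ^ 2 :=
      fun x j => mul_nonneg (hJ x j) (sq_nonneg _)
    calc J z y * (cc N J z z * cc N J y y - cc N J z y * cc N J y z) ^ 2
        ≤ ∑ j, J z j * (cc N J z z * cc N J y j - cc N J z j * cc N J y z) ^ 2 :=
          Finset.single_le_sum (f := fun j => J z j *
            (cc N J z z * cc N J y j - cc N J z j * cc N J y z) ^ 2) (fun j _ => h2 z j)
            (Finset.mem_univ y)
      _ ≤ _ := Finset.single_le_sum (f := fun x => ∑ j, J x j *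
            (cc N J z x * cc N J y j - cc N J z j * cc N J y x) ^ 2)
            (fun x _ => Finset.sum_nonneg fun j _ => h2 x j) (Finset.mem_univ z)
  rw [cc_self, cc_self, cc_comm J y z] at h1
  have h3 : H ≤ J z y := by
    rw [hJdef]
    unfold JH
    have h4 : (0 : ℝ) ≤ β * (if G.Adj z y then 1 else 0) := by
      apply mul_nonneg hβ
      split_ifs <;> norm_num
    have h5 : H ≤ H * ((if z = y then (1 : ℝ) else 0) + (if y = y then 1 else 0)) := by
      rw [if_pos rfl]
      have : (0 : ℝ) ≤ if z = y then (1 : ℝ) else 0 := by split_ifs <;> norm_num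
      nlinarith
    linarith
  rcases h0.eq_or_lt with h6 | h6
  · rw [← h6]
    simp
  · have h7 : H * (1 - cc N J z y ^ 2) ^ 2 ≤ J z y * (1 - cc N J z y ^ 2) ^ 2 :=
      mul_le_mul_of_nonneg_right h3 (sq_nonneg _)
    have h8 : (H * (1 - cc N J z y ^ 2)) * (1 - cc N J z y ^ 2)
        ≤ (2 * N) * (1 - cc N J z y ^ 2) := by
      calc (H * (1 - cc N J z y ^ 2)) * (1 - cc N J z y ^ 2)
          = H * (1 - cc N J z y ^ 2) ^ 2 := by ring
        _ ≤ J z y * (1 - cc N J z y ^ 2) ^ 2 := h7
        _ = J z y * (1 * 1 - cc N J z y * cc N J z y) ^ 2 := by ring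
        _ ≤ _ := h1
        _ ≤ _ := hk
    exact le_of_mul_le_mul_right h8 h6

/-- If all `c_{wy}^2` are at least `τ`, then they obey a resistance bound. -/
lemma step (G : SimpleGraph V) [DecidableRel G.Adj]
    (hconn : G.Connected) (hV : Nontrivial V) (M : ℝ) (hM : 0 ≤ M)
    (hG : greenMax G ≤ ENNReal.ofReal M) {β H τ : ℝ}
    (hβ : 0 < β) (hH : 0 ≤ H) (y z : V) (hT : Twist N (JH G β y H)) (hτ : 0 < τ)
    (hsmall : ∀ w, τ ≤ cc N (JH G β y H) y w ^ 2) :
    β * τ ^ 2 * (1 - cc N (JH G β y H) y z ^ 2) ≤ N * M * cc N (JH G β y H) y z ^ 2 := by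
  set J := JH G β y H with hJdef
  have hJ : ∀ x j, 0 ≤ J x j := JH_nonneg G hβ.le hH y
  have hk := key J hJ hT z y
  have h0 : 0 ≤ 1 - cc N J y z ^ 2 := by
    have := cc_sq_le_one (N := N) J y z
    linarith
  have hm0 : ∀ x, cc N J y x ≠ 0 := by
    intro x h
    have := hsmall x
    rw [h] at this
    norm_num at this
    linarith
  set u : V → ℝ := fun x => cc N J z x / cc N J y x with hu
  have hd := dirichlet G hconn hV M hM hG z y u
  have hterm : ∀ x j, β * τ ^ 2 * (if G.Adj x j then (u x - u j) ^ 2 else 0)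
      ≤ J x j * (cc N J z x * cc N J y j - cc N J z j * cc N J y x) ^ 2 := by
    intro x j
    have h1 : cc N J z x * cc N J y j - cc N J z j * cc N J y x
        = (cc N J y x * cc N J y j) * (u x - u j) := by
      simp only [hu]
      have h2 := hm0 x
      have h3 := hm0 j
      field_simp
    rw [h1, mul_pow, mul_pow]
    have h4 : τ ^ 2 ≤ cc N J y x ^ 2 * cc N J y j ^ 2 := by
      have := mul_le_mul (hsmall x) (hsmall j) hτ.le (sq_nonneg _)
      nlinarith
    have h5 : β * (if G.Adj x j then 1 else 0) ≤ J x j := by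
      rw [hJdef]
      unfold JH
      have : (0 : ℝ) ≤ H * ((if x = y then 1 else 0) + (if j = y then 1 else 0)) := by
        apply mul_nonneg hH
        split_ifs <;> norm_num
      linarith
    by_cases hadj : G.Adj x j
    · rw [if_pos hadj] at h5 ⊢
      have h6 : τ ^ 2 * (u x - u j) ^ 2 ≤ cc N J y x ^ 2 * cc N J y j ^ 2 * (u x - u j) ^ 2 :=
        mul_le_mul_of_nonneg_right h4 (sq_nonneg _)
      calc β * τ ^ 2 * (u x - u j) ^ 2 = β * (τ ^ 2 * (u x - u j) ^ 2) := by ring
        _ ≤ J x j * (cc N J y x ^ 2 * cc N J y j ^ 2 * (u x - u j) ^ 2) :=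
          mul_le_mul (by linarith) h6 (by positivity) (hJ x j)
    · rw [if_neg hadj, mul_zero]
      exact mul_nonneg (hJ x j) (by positivity)
  have hen : β * τ ^ 2 * (2 * energy G u) ≤ 2 * N * (1 - cc N J y z ^ 2) := by
    rw [cc_comm J y z]
    refine le_trans ?_ hk
    have h1 : β * τ ^ 2 * (2 * energy G u)
        = ∑ x, ∑ j, β * τ ^ 2 * (if G.Adj x j then (u x - u j) ^ 2 else 0) := by
      have h2 : 2 * energy G u = ∑ x, ∑ j, if G.Adj x j then (u x - u j) ^ 2 else 0 := by
        unfold energy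
        rw [mul_div_cancel₀ _ (by norm_num : (2 : ℝ) ≠ 0)]
        refine Finset.sum_congr rfl fun x _ => ?_
        rw [← Finset.sum_filter]
        apply Finset.sum_congr _ (fun _ _ => rfl)
        ext t; simp
      rw [h2]
      simp only [Finset.mul_sum]
    rw [h1]
    exact Finset.sum_le_sum fun x _ => Finset.sum_le_sum fun j _ => hterm x j
  have hc := hm0 z
  have hc2 : 0 < cc N J y z ^ 2 := by positivity
  have huz : u z - u y = (1 - cc N J y z ^ 2) / cc N J y z := by
    simp only [hu]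
    rw [cc_self, cc_self, div_one, cc_comm J z y]
    field_simp
  rw [huz, div_pow, div_le_iff₀ hc2] at hd
  rcases h0.eq_or_lt with h6 | h6
  · rw [← h6, mul_zero]
    positivity
  · have h7 : (β * τ ^ 2 * (1 - cc N J y z ^ 2)) * (1 - cc N J y z ^ 2)
        ≤ (N * M * cc N J y z ^ 2) * (1 - cc N J y z ^ 2) := by
      calc (β * τ ^ 2 * (1 - cc N J y z ^ 2)) * (1 - cc N J y z ^ 2)
          = (β * τ ^ 2) * (1 - cc N J y z ^ 2) ^ 2 := by ring
        _ ≤ (β * τ ^ 2) * (M * energy G u * cc N J y z ^ 2) :=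
          mul_le_mul_of_nonneg_left hd (by positivity)
        _ = (M * cc N J y z ^ 2) * (β * τ ^ 2 * (2 * energy G u)) / 2 := by ring
        _ ≤ (M * cc N J y z ^ 2) * (2 * N * (1 - cc N J y z ^ 2)) / 2 := by
          apply div_le_div_of_nonneg_right _ (by norm_num)
          exact mul_le_mul_of_nonneg_left hen (by positivity)
        _ = _ := by ring
    exact le_of_mul_le_mul_right h7 h6

/-- The bootstrap: all `c_{zy}^2` are at least `1/2`. -/
theorem half (G : SimpleGraph V) [DecidableRel G.Adj]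
    (hconn : G.Connected) (hV : Nontrivial V) (M : ℝ) (hM : 0 ≤ M)
    (hG : greenMax G ≤ ENNReal.ofReal M) {β : ℝ}
    (hβ : 0 < β) (hβM : 4 * N * M < β) (y : V)
    (hT : ∀ H : ℝ, 0 ≤ H → Twist N (JH G β y H)) (H : ℝ) (hH : 0 ≤ H) (z : V) :
    1 / 2 ≤ cc N (JH G β y H) z y ^ 2 := by
  have hne : (Finset.univ : Finset V).Nonempty := ⟨y, Finset.mem_univ y⟩
  set g : ℝ → ℝ := fun H => Finset.univ.sup' hne fun z => 1 - cc N (JH G β y H) z y ^ 2 with hg
  have hgc : Continuous g := by
    apply Continuous.finset_sup'_apply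
    intro z _
    exact continuous_const.sub ((continuous_cc G β y z).pow 2)
  have hle : ∀ H w, 1 - cc N (JH G β y H) w y ^ 2 ≤ g H := fun H w =>
    Finset.le_sup' (f := fun z => 1 - cc N (JH G β y H) z y ^ 2) (Finset.mem_univ w)
  suffices hgH : g H ≤ 1 / 2 by
    have := hle H z
    linarith
  by_contra hcon
  have h0 : 1 / 2 ≤ g H := (not_le.1 hcon).le
  have hN : (0 : ℝ) < N := Nat.cast_pos.2 (Nat.pos_of_ne_zero (NeZero.ne N))
  have hK : 0 < H + 4 * N := by positivity
  have h13 : g (H + 4 * N) ≤ 1 / 2 := by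
    apply Finset.sup'_le
    intro w _
    have h1 := apriori G hβ.le hK.le y w (hT _ hK.le)
    have h2 := cc_sq_le_one (N := N) (JH G β y (H + 4 * N)) w y
    nlinarith
  obtain ⟨K, hK', hgK⟩ := intermediate_value_Icc' (by linarith : H ≤ H + 4 * N)
    hgc.continuousOn (show (1 / 2 : ℝ) ∈ Set.Icc (g (H + 4 * N)) (g H) from ⟨h13, h0⟩)
  have hK0 : 0 ≤ K := hH.trans hK'.1
  obtain ⟨w, _, hw⟩ := Finset.exists_mem_eq_sup' hne fun z => 1 - cc N (JH G β y K) z y ^ 2
  have hw2 : 1 - cc N (JH G β y K) w y ^ 2 = 1 / 2 := by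
    rw [← hw]; exact hgK
  have hst := step G hconn hV M hM hG hβ hK0 y w (hT K hK0) (by norm_num : (0 : ℝ) < 1 / 2)
    (fun v => by
      have := (hle K v).trans hgK.le
      rw [cc_comm]
      linarith)
  rw [cc_comm, hw2] at hst
  have : cc N (JH G β y K) w y ^ 2 = 1 / 2 := by linarith
  rw [this] at hst
  linarith

/-- Positivity of the two point function -/
theorem pos_of (G : SimpleGraph V) [DecidableRel G.Adj]
    (hconn : G.Connected) (hV : Nontrivial V) (M : ℝ) (hM : 0 ≤ M)
    (hG : greenMax G ≤ ENNReal.ofReal M) {β : ℝ}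
    (hβ : 0 < β) (hβM : 4 * N * M < β) (y : V)
    (hT : ∀ H : ℝ, 0 ≤ H → Twist N (JH G β y H)) (hc : ∀ x z, 0 ≤ cc N (JH G β y 0) x z) (z : V) :
    1 - 5 * N * M / (4 * β) ≤ cc N (JH G β y 0) z y := by
  have hN : (0 : ℝ) < N := Nat.cast_pos.2 (Nat.pos_of_ne_zero (NeZero.ne N))
  obtain ⟨w, hw⟩ := Finite.exists_min fun z => cc N (JH G β y 0) z y
  have h1 := half G hconn hV M hM hG hβ hβM y hT 0 le_rfl w
  refine le_trans ?_ (hw z)
  set c := cc N (JH G β y 0) w y with hcdef
  have hc0 : 0 ≤ c := hc w y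
  have hc1 : c ≤ 1 := cc_le_one _ _ _
  have hst := step G hconn hV M hM hG hβ le_rfl y w (hT 0 le_rfl)
    (τ := c ^ 2) (by linarith) (fun v => by
      have h2 := hw v
      rw [cc_comm]
      exact pow_le_pow_left₀ hc0 h2 2)
  rw [cc_comm, ← hcdef] at hst
  -- `β c^4 (1 - c^2) ≤ N M c^2`
  have h2 : β * c ^ 2 * (1 - c ^ 2) ≤ N * M := by
    have h3 : (β * c ^ 2 * (1 - c ^ 2)) * c ^ 2 ≤ (N * M) * c ^ 2 := by
      calc (β * c ^ 2 * (1 - c ^ 2)) * c ^ 2 = β * (c ^ 2) ^ 2 * (1 - c ^ 2) := by ring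
        _ ≤ _ := hst
    exact le_of_mul_le_mul_right h3 (by linarith)
  have h4 : 7 / 10 ≤ c := by
    by_contra h
    push Not at h
    nlinarith
  have h5 : (4 / 5 : ℝ) ≤ c ^ 2 * (1 + c) := by
    nlinarith
  have h6 : β * (4 / 5) * (1 - c) ≤ N * M := by
    calc β * (4 / 5) * (1 - c) ≤ β * (c ^ 2 * (1 + c)) * (1 - c) := by
          apply mul_le_mul_of_nonneg_right _ (by linarith)
          exact mul_le_mul_of_nonneg_left h5 hβ.le
      _ = β * c ^ 2 * (1 - c ^ 2) := by ring
      _ ≤ _ := h2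
  have h7 : 1 - c ≤ 5 * N * M / (4 * β) := by
    rw [le_div_iff₀ (by positivity)]
    linarith
  linarith

end Pool.Agent.helper21.ON
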