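import Mathlib
import Pool.Agent.helper21.ON.Key

/-!
# Griffiths' first inequality for `O(N)` spins
-/

set_option linter.unusedSectionVars false

open MeasureTheory
open scoped ComplexOrder

namespace Pool.Agent.helper21.ON

open Pool.Agent.helper71.XY.Defs
open Pool.Agent.helper71.XY (integrable_of_continuous PosClass)

variable {N : ℕ} [NeZero N] {V : Type} [Fintype V] [DecidableEq V]

/-- the class of monomials in the coordinates -/
def Mon1 (f : (V → Sph N) → ℂ) : Prop :=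
  ∃ n : V → Fin N → ℕ, f = fun σ => ((∏ x, ∏ a, co a (σ x) ^ n x a : ℝ) : ℂ)

lemma Mon1.mul' {f g : (V → Sph N) → ℂ} (hf : Mon1 f) (hg : Mon1 g) :
    Mon1 fun σ => f σ * g σ := by
  obtain ⟨m, rfl⟩ := hf
  obtain ⟨n, rfl⟩ := hg
  refine ⟨fun x a => m x a + n x a, ?_⟩
  funext σ
  rw [← Complex.ofReal_mul, ← Finset.prod_mul_distrib]
  congr 1
  refine Finset.prod_congr rfl fun x _ => ?_
  rw [← Finset.prod_mul_distrib]
  refine Finset.prod_congr rfl fun a _ => ?_
  rw [pow_add]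

lemma mon1_one : Mon1 (N := N) (V := V) fun _ => 1 := ⟨fun _ _ => 0, by simp⟩

lemma mon1_co (z : V) (b : Fin N) : Mon1 (N := N) (V := V) fun σ => ((co b (σ z) : ℝ) : ℂ) := by
  refine ⟨fun x a => if x = z ∧ a = b then 1 else 0, ?_⟩
  funext σ
  congr 1
  rw [Finset.prod_eq_single z, Finset.prod_eq_single b]
  · simp
  · intro a _ ha
    simp [ha]
  · simp
  · intro x _ hx
    simp [hx]
  · simp

lemma site1_nonneg (n : Fin N → ℕ) : 0 ≤ ∫ s, ∏ a, co a s ^ n a ∂(nu N) := by
  by_cases h : ∀ a, Even (n a)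
  · apply integral_nonneg
    intro s
    exact Finset.prod_nonneg fun a _ => (h a).pow_nonneg _
  · push Not at h
    obtain ⟨b, hb⟩ := h
    have hb' : Odd (n b) := Nat.not_even_iff_odd.1 hb
    have hco := continuous_co (N := N)
    have hc : Continuous fun s : Sph N => ∏ a, co a s ^ n a := by fun_prop
    have h1 := mp_isoS (reflL b)
    have h2 : ∫ s, ∏ a, co a s ^ n a ∂(nu N)
        = ∫ s, ∏ a, co a (isoS (reflL b) s) ^ n a ∂(nu N) := by
      conv_lhs => rw [← h1.map_eq]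
      rw [integral_map (f := fun s : Sph N => ∏ a, co a s ^ n a) h1.measurable.aemeasurable
        hc.aestronglyMeasurable]
    have h3 : ∀ s : Sph N, ∏ a, co a (isoS (reflL b) s) ^ n a = - ∏ a, co a s ^ n a := by
      intro s
      have h4 : ∏ a, co a (isoS (reflL b) s) ^ n a
          = (∏ a, (if a = b then (-1 : ℝ) else 1) ^ n a) * ∏ a, co a s ^ n a := by
        rw [← Finset.prod_mul_distrib]
        refine Finset.prod_congr rfl fun a _ => ?_
        rw [co_reflL, mul_pow]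
      rw [h4, Finset.prod_eq_single b]
      · rw [if_pos rfl, hb'.neg_one_pow]
        ring
      · intro a _ ha
        rw [if_neg ha, one_pow]
      · simp
    simp only [h3] at h2
    rw [integral_neg] at h2
    linarith

lemma posMon1 : PosClass (P1 N V) (Mon1 (N := N) (V := V)) where
  one := mon1_one
  mul _ _ hf hg := hf.mul' hg
  cont f hf := by
    obtain ⟨n, rfl⟩ := hf
    have h1 := continuous_co' (N := N) (V := V)
    have h3 : Continuous fun σ : V → Sph N => ∏ x, ∏ a, co a (σ x) ^ n x a := by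
      fun_prop
    exact Complex.continuous_ofReal.comp h3
  pos f hf := by
    obtain ⟨n, rfl⟩ := hf
    rw [integral_complex_ofReal, Complex.zero_le_real, P1,
      integral_fintype_prod_eq_prod (f := fun x (s : Sph N) => ∏ a, co a s ^ n x a)]
    exact Finset.prod_nonneg fun x _ => site1_nonneg _

lemma Ic_nonneg (J : V → V → ℝ) (hJ : ∀ x j, 0 ≤ J x j) (b : Fin N) (x y : V) :
    0 ≤ Ic J b b x y := by
  have h := ((posMon1 (N := N) (V := V)).exp_bound
    (fun i : V × V × Fin N => ((J i.1 i.2.1 / 2 : ℝ) : ℂ))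
    (fun i σ => ((co i.2.2 (σ i.1) : ℝ) : ℂ) * ((co i.2.2 (σ i.2.1) : ℝ) : ℂ))
    (fun i => (mon1_co i.1 i.2.2).mul' (mon1_co i.2.1 i.2.2))
    (fun σ => ((co b (σ x) : ℝ) : ℂ) * ((co b (σ y) : ℝ) : ℂ))
    ((mon1_co x b).mul' (mon1_co y b))).2
  have h1 : ∀ σ : V → Sph N, Complex.exp (∑ i : V × V × Fin N,
      ((‖((J i.1 i.2.1 / 2 : ℝ) : ℂ)‖ : ℝ) : ℂ)
        * (((co i.2.2 (σ i.1) : ℝ) : ℂ) * ((co i.2.2 (σ i.2.1) : ℝ) : ℂ)))
      * (((co b (σ x) : ℝ) : ℂ) * ((co b (σ y) : ℝ) : ℂ))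
      = ((W J σ * (co b (σ x) * co b (σ y)) : ℝ) : ℂ) := by
    intro σ
    have h2 : (∑ i : V × V × Fin N,
      ((‖((J i.1 i.2.1 / 2 : ℝ) : ℂ)‖ : ℝ) : ℂ)
        * (((co i.2.2 (σ i.1) : ℝ) : ℂ) * ((co i.2.2 (σ i.2.1) : ℝ) : ℂ)))
        = (((1 / 2) * ∑ x, ∑ j, J x j * dot (σ x) (σ j) : ℝ) : ℂ) := by
      rw [Fintype.sum_prod_type, Finset.mul_sum, Complex.ofReal_sum]
      refine Finset.sum_congr rfl fun x _ => ?_
      rw [Fintype.sum_prod_type, Finset.mul_sum, Complex.ofReal_sum]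
      refine Finset.sum_congr rfl fun j _ => ?_
      rw [dot_eq_sum, Finset.mul_sum, Finset.mul_sum, Complex.ofReal_sum]
      refine Finset.sum_congr rfl fun a _ => ?_
      have h3 := hJ x j
      rw [Complex.norm_real, Real.norm_of_nonneg (by positivity)]
      push_cast
      ring
    rw [h2, ← Complex.ofReal_exp]
    unfold W
    push_cast
    ring
  simp only [h1] at h
  rw [integral_complex_ofReal, Complex.zero_le_real] at h
  exact h

theorem cc_nonneg (J : V → V → ℝ) (hJ : ∀ x j, 0 ≤ J x j) (x y : V) : 0 ≤ cc N J x y := by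
  unfold cc
  apply div_nonneg _ (II_pos (N := N) J).le
  rw [Id_eq J (0 : Fin N)]
  exact mul_nonneg (Nat.cast_nonneg _) (Ic_nonneg J hJ 0 x y)

end Pool.Agent.helper21.ON
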