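import Mathlib
import Pool.Agent.helper21.ON.Two

/-!
# Unit quaternions and the sphere of `ℝ⁴`
-/

set_option linter.unusedSectionVars false

open MeasureTheory Quaternion

namespace Pool.Agent.helper21.ON

open Pool.Agent.helper71.XY.Defs
open Pool.Agent.helper71.XY (integrable_of_continuous)

/-- unit quaternions -/
abbrev SU : Type := Metric.sphere (0 : ℍ[ℝ]) 1

noncomputable instance instMeasSU : MeasurableSpace SU := borel SU

instance instBorelSU : BorelSpace SU := ⟨rfl⟩

/-- identification of the unit quaternions with the unit sphere of `ℝ⁴` -/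
noncomputable def toS (q : SU) : Sph 4 :=
  ⟨Quaternion.linearIsometryEquivTuple (q : ℍ[ℝ]), by
    rw [mem_sphere_zero_iff_norm, LinearIsometryEquiv.norm_map]
    exact mem_sphere_zero_iff_norm.1 q.2⟩

/-- identification of the unit sphere of `ℝ⁴` with the unit quaternions -/
noncomputable def ofS (s : Sph 4) : SU :=
  ⟨Quaternion.linearIsometryEquivTuple.symm (s : EuclideanSpace ℝ (Fin 4)), by
    rw [mem_sphere_zero_iff_norm, LinearIsometryEquiv.norm_map]
    exact mem_sphere_zero_iff_norm.1 s.2⟩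

lemma ofS_toS (q : SU) : ofS (toS q) = q := by
  apply Subtype.ext
  simp [ofS, toS]

lemma toS_ofS (s : Sph 4) : toS (ofS s) = s := by
  apply Subtype.ext
  exact Quaternion.linearIsometryEquivTuple.apply_symm_apply (s : EuclideanSpace ℝ (Fin 4))

lemma continuous_toS : Continuous toS := by
  unfold toS
  exact Continuous.subtype_mk
    (Quaternion.linearIsometryEquivTuple.continuous.comp continuous_subtype_val) _

lemma continuous_ofS : Continuous ofS := by
  unfold ofS
  exact Continuous.subtype_mk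
    (Quaternion.linearIsometryEquivTuple.symm.continuous.comp continuous_subtype_val) _

/-- normalised measure on the unit quaternions -/
noncomputable def haarQ : Measure SU := (nu 4).map ofS

instance instProbHaarQ : IsProbabilityMeasure haarQ :=
  Measure.isProbabilityMeasure_map continuous_ofS.measurable.aemeasurable

lemma mp_ofS : MeasurePreserving ofS (nu 4) haarQ := ⟨continuous_ofS.measurable, rfl⟩

lemma mp_toS : MeasurePreserving toS haarQ (nu 4) := by
  refine ⟨continuous_toS.measurable, ?_⟩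
  rw [haarQ, Measure.map_map continuous_toS.measurable continuous_ofS.measurable]
  have : toS ∘ ofS = id := by
    funext s
    exact toS_ofS s
  rw [this, Measure.map_id]

lemma norm_SU (q : SU) : ‖(q : ℍ[ℝ])‖ = 1 := mem_sphere_zero_iff_norm.1 q.2

/-- left multiplication -/
noncomputable def leftL (g : SU) : ℍ[ℝ] ≃ₗᵢ[ℝ] ℍ[ℝ] where
  toFun := fun x => (g : ℍ[ℝ]) * x
  invFun := fun x => (g : ℍ[ℝ])⁻¹ * x
  map_add' := mul_add _
  map_smul' := fun c x => by simp
  left_inv := fun x => by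
    have : (g : ℍ[ℝ]) ≠ 0 := by
      intro h
      have := norm_SU g
      rw [h, norm_zero] at this
      norm_num at this
    simp [this]
  right_inv := fun x => by
    have : (g : ℍ[ℝ]) ≠ 0 := by
      intro h
      have := norm_SU g
      rw [h, norm_zero] at this
      norm_num at this
    simp [this]
  norm_map' := fun x => by
    change ‖(g : ℍ[ℝ]) * x‖ = ‖x‖
    rw [norm_mul, norm_SU, one_mul]

/-- right multiplication -/
noncomputable def rightL (g : SU) : ℍ[ℝ] ≃ₗᵢ[ℝ] ℍ[ℝ] where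
  toFun := fun x => x * (g : ℍ[ℝ])
  invFun := fun x => x * (g : ℍ[ℝ])⁻¹
  map_add' := fun x y => add_mul x y _
  map_smul' := fun c x => by simp
  left_inv := fun x => by
    have : (g : ℍ[ℝ]) ≠ 0 := by
      intro h
      have := norm_SU g
      rw [h, norm_zero] at this
      norm_num at this
    simp [this]
  right_inv := fun x => by
    have : (g : ℍ[ℝ]) ≠ 0 := by
      intro h
      have := norm_SU g
      rw [h, norm_zero] at this
      norm_num at this
    simp [this]
  norm_map' := fun x => by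
    change ‖x * (g : ℍ[ℝ])‖ = ‖x‖
    rw [norm_mul, norm_SU, mul_one]

/-- transport to `ℝ⁴` -/
noncomputable def tr (L : ℍ[ℝ] ≃ₗᵢ[ℝ] ℍ[ℝ]) :
    EuclideanSpace ℝ (Fin 4) ≃ₗᵢ[ℝ] EuclideanSpace ℝ (Fin 4) :=
  (Quaternion.linearIsometryEquivTuple.symm.trans L).trans Quaternion.linearIsometryEquivTuple

lemma ofS_isoS (L : ℍ[ℝ] ≃ₗᵢ[ℝ] ℍ[ℝ]) (s : Sph 4) :
    ((ofS (isoS (tr L) s) : SU) : ℍ[ℝ]) = L (ofS s : ℍ[ℝ]) := by
  unfold ofS isoS tr
  simp

lemma mp_left (g : SU) : MeasurePreserving (fun q => g * q) haarQ haarQ := by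
  have hc : Continuous fun q : SU => g * q := continuous_const.mul continuous_id
  refine ⟨hc.measurable, ?_⟩
  rw [haarQ, Measure.map_map hc.measurable continuous_ofS.measurable]
  have : (fun q : SU => g * q) ∘ ofS = ofS ∘ isoS (tr (leftL g)) := by
    funext s
    apply Subtype.ext
    simp only [Function.comp]
    rw [ofS_isoS]
    rfl
  rw [this, ← Measure.map_map continuous_ofS.measurable (continuous_isoS _).measurable,
    (mp_isoS _).map_eq]

lemma mp_right (g : SU) : MeasurePreserving (fun q => q * g) haarQ haarQ := by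
  have hc : Continuous fun q : SU => q * g := continuous_id.mul continuous_const
  refine ⟨hc.measurable, ?_⟩
  rw [haarQ, Measure.map_map hc.measurable continuous_ofS.measurable]
  have : (fun q : SU => q * g) ∘ ofS = ofS ∘ isoS (tr (rightL g)) := by
    funext s
    apply Subtype.ext
    simp only [Function.comp]
    rw [ofS_isoS]
    rfl
  rw [this, ← Measure.map_map continuous_ofS.measurable (continuous_isoS _).measurable,
    (mp_isoS _).map_eq]

instance instLeftInv : haarQ.IsMulLeftInvariant := ⟨fun g => (mp_left g).map_eq⟩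

instance instRightInv : haarQ.IsMulRightInvariant := ⟨fun g => (mp_right g).map_eq⟩

/-- real part of a unit quaternion -/
noncomputable def re0 (g : SU) : ℝ := (g : ℍ[ℝ]).re

lemma continuous_re0 : Continuous re0 :=
  Quaternion.continuous_re.comp continuous_subtype_val

lemma sum_sq (g : SU) : (g : ℍ[ℝ]).re ^ 2 + (g : ℍ[ℝ]).imI ^ 2 + (g : ℍ[ℝ]).imJ ^ 2
    + (g : ℍ[ℝ]).imK ^ 2 = 1 := by
  rw [← Quaternion.normSq_def', Quaternion.normSq_eq_norm_mul_self, norm_SU, one_mul]

lemma re0_sq (g : SU) : re0 g ^ 2 ≤ 1 := by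
  have := sum_sq g
  unfold re0
  nlinarith [sq_nonneg (g : ℍ[ℝ]).imI, sq_nonneg (g : ℍ[ℝ]).imJ, sq_nonneg (g : ℍ[ℝ]).imK]

lemma re0_le (g : SU) : re0 g ≤ 1 := by nlinarith [re0_sq g]

lemma le_re0 (g : SU) : -1 ≤ re0 g := by nlinarith [re0_sq g]

/-- `cos (α/2)` -/
noncomputable def Cc (g : SU) : ℝ := √((1 + re0 g) / 2)

/-- `sin (α/2)` -/
noncomputable def Ss (g : SU) : ℝ := √((1 - re0 g) / 2)

lemma Cc_nonneg (g : SU) : 0 ≤ Cc g := Real.sqrt_nonneg _

lemma Ss_nonneg (g : SU) : 0 ≤ Ss g := Real.sqrt_nonneg _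

lemma Cc_sq (g : SU) : Cc g ^ 2 = (1 + re0 g) / 2 :=
  Real.sq_sqrt (by have := le_re0 g; linarith)

lemma Ss_sq (g : SU) : Ss g ^ 2 = (1 - re0 g) / 2 :=
  Real.sq_sqrt (by have := re0_le g; linarith)

lemma continuous_Cc : Continuous Cc := by
  have := continuous_re0
  unfold Cc
  fun_prop

lemma continuous_Ss : Continuous Ss := by
  have := continuous_re0
  unfold Ss
  fun_prop

lemma norm_eq_one_of (x : ℍ[ℝ]) (h : x.re ^ 2 + x.imI ^ 2 + x.imJ ^ 2 + x.imK ^ 2 = 1) :
    ‖x‖ = 1 := by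
  rw [← Quaternion.normSq_def', Quaternion.normSq_eq_norm_mul_self] at h
  nlinarith [norm_nonneg x]

/-- the unit quaternion `cos (α/2) + i sin (α/2)` -/
noncomputable def hh (g : SU) : SU := ⟨⟨Cc g, Ss g, 0, 0⟩, by
  rw [mem_sphere_zero_iff_norm]
  apply norm_eq_one_of
  simp only
  rw [Cc_sq, Ss_sq]
  ring⟩

lemma continuous_hh : Continuous hh := by
  unfold hh
  apply Continuous.subtype_mk
  have h : (fun g : SU => (⟨Cc g, Ss g, 0, 0⟩ : ℍ[ℝ]))
      = fun g => Quaternion.linearIsometryEquivTuple.symm (!₂[Cc g, Ss g, 0, 0]) := by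
    funext g
    rfl
  rw [h]
  apply Quaternion.linearIsometryEquivTuple.symm.continuous.comp
  have h1 := continuous_Cc
  have h2 := continuous_Ss
  apply (PiLp.continuous_toLp 2 _).comp
  apply continuous_pi
  intro i
  fin_cases i
  · exact h1
  · exact h2
  · exact continuous_const
  · exact continuous_const

lemma exists_conj (g : SU) : ∃ r : SU, g * r = r * (hh g * hh g) := by
  have hg := sum_sq g
  have h1 := Cc_sq g
  have h2 := Ss_sq g
  have hC := Cc_nonneg g
  have hS := Ss_nonneg g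
  set ρ : ℝ := 2 * Cc g * Ss g with hρ
  have hρ0 : 0 ≤ ρ := by positivity
  have hρ2 : ρ ^ 2 = 1 - re0 g ^ 2 := by
    rw [hρ, mul_pow, mul_pow, h1, h2]
    ring
  have hh2 : ((hh g * hh g : SU) : ℍ[ℝ]) = ⟨re0 g, ρ, 0, 0⟩ := by
    change (⟨Cc g, Ss g, 0, 0⟩ : ℍ[ℝ]) * ⟨Cc g, Ss g, 0, 0⟩ = _
    ext
    · simp
      nlinarith
    · simp
      rw [hρ]
      ring
    · simp
    · simp
  set x : ℍ[ℝ] := ⟨0, (g : ℍ[ℝ]).imI + ρ, (g : ℍ[ℝ]).imJ, (g : ℍ[ℝ]).imK⟩ with hx
  have hv2 : (g : ℍ[ℝ]).imI ^ 2 + (g : ℍ[ℝ]).imJ ^ 2 + (g : ℍ[ℝ]).imK ^ 2 = ρ ^ 2 := by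
    rw [hρ2]
    unfold re0
    linarith
  by_cases hx0 : x = 0
  · -- `r = j`
    have e1 : (g : ℍ[ℝ]).imI = -ρ := by
      have := congrArg (fun t : ℍ[ℝ] => t.imI) hx0
      simp [hx] at this
      linarith
    have e2 : (g : ℍ[ℝ]).imJ = 0 := by
      have := congrArg (fun t : ℍ[ℝ] => t.imJ) hx0
      simpa [hx] using this
    have e3 : (g : ℍ[ℝ]).imK = 0 := by
      have := congrArg (fun t : ℍ[ℝ] => t.imK) hx0
      simpa [hx] using this
    refine ⟨⟨⟨0, 0, 1, 0⟩, ?_⟩, ?_⟩
    · rw [mem_sphere_zero_iff_norm]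
      apply norm_eq_one_of
      norm_num
    · apply Subtype.ext
      change (g : ℍ[ℝ]) * ⟨0, 0, 1, 0⟩ = ⟨0, 0, 1, 0⟩ * ((hh g * hh g : SU) : ℍ[ℝ])
      rw [hh2]
      ext
      · simp [e2]
      · simp [e3]
      · simp [re0]
      · simp [e1]
  · have hgx : (g : ℍ[ℝ]) * x = x * ⟨re0 g, ρ, 0, 0⟩ := by
      ext
      · simp [hx, re0]
        nlinarith
      · simp [hx, re0]
        ring
      · simp [hx, re0]
        ring
      · simp [hx, re0]
        ring
    have hn : ‖x‖ ≠ 0 := norm_ne_zero_iff.2 hx0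
    refine ⟨⟨(‖x‖⁻¹ : ℝ) • x, ?_⟩, ?_⟩
    · rw [mem_sphere_zero_iff_norm, norm_smul, norm_inv, norm_norm, inv_mul_cancel₀ hn]
    · apply Subtype.ext
      change (g : ℍ[ℝ]) * ((‖x‖⁻¹ : ℝ) • x) = ((‖x‖⁻¹ : ℝ) • x) * ((hh g * hh g : SU) : ℍ[ℝ])
      rw [hh2, mul_smul_comm, smul_mul_assoc, hgx]

/-- the parametrisation of two independent points -/
noncomputable def Phi (p : SU × (SU × SU)) : SU × SU :=
  (p.2.1 * (hh p.1)⁻¹ * p.2.2⁻¹, p.2.1 * hh p.1 * p.2.2⁻¹)

lemma continuous_Phi : Continuous Phi := by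
  have := continuous_hh
  unfold Phi
  fun_prop

lemma int_conj (g : SU) (f : SU → ℝ) :
    ∫ r, f (r * (hh g * hh g) * r⁻¹) ∂haarQ = ∫ r, f (r * g * r⁻¹) ∂haarQ := by
  obtain ⟨r0, hr0⟩ := exists_conj g
  rw [← integral_mul_right_eq_self (μ := haarQ) (fun r => f (r * (hh g * hh g) * r⁻¹)) r0]
  congr 1
  funext r
  congr 1
  have h : g = r0 * (hh g * hh g) * r0⁻¹ := by
    rw [← hr0]; group
  conv_rhs => rw [h]
  group

lemma int_fixed (g : SU) (F : SU × SU → ℝ) (hF : Continuous F) :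
    ∫ p : SU × SU, F (Phi (g, p)) ∂(haarQ.prod haarQ)
      = ∫ p : SU × SU, F (p.1, p.1 * p.2 * g * p.2⁻¹) ∂(haarQ.prod haarQ) := by
  have hc1 : Continuous fun p : SU × SU => F (Phi (g, p)) :=
    hF.comp (continuous_Phi.comp (continuous_const.prodMk continuous_id))
  have hc2 : Continuous fun p : SU × SU => F (p.1, p.1 * p.2 * g * p.2⁻¹) := by
    fun_prop
  have hc3 : Continuous fun p : SU × SU => F (p.2, p.2 * (p.1 * (hh g * hh g) * p.1⁻¹)) := by
    fun_prop
  rw [integral_prod_symm _ (integrable_of_continuous _ hc1),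
    integral_prod _ (integrable_of_continuous _ hc2)]
  have h1 : ∀ r : SU, ∫ q, F (Phi (g, (q, r))) ∂haarQ
      = ∫ q, F (q, q * (r * (hh g * hh g) * r⁻¹)) ∂haarQ := by
    intro r
    rw [← integral_mul_right_eq_self (μ := haarQ) (fun q => F (Phi (g, (q, r)))) (r * hh g)]
    congr 1
    funext q
    unfold Phi
    congr 1
    apply Prod.ext
    · simp only
      group
    · simp only
      group
  simp_rw [h1]
  rw [integral_integral_swap (f := fun r q => F (q, q * (r * (hh g * hh g) * r⁻¹)))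
    (integrable_of_continuous _ hc3)]
  congr 1
  funext q
  rw [int_conj g (fun t => F (q, q * t))]
  congr 1
  funext r
  congr 2
  group

lemma int_Phi (F : SU × SU → ℝ) (hF : Continuous F) :
    ∫ p, F (Phi p) ∂(haarQ.prod (haarQ.prod haarQ)) = ∫ p, F p ∂(haarQ.prod haarQ) := by
  have hc1 : Continuous fun p : SU × (SU × SU) => F (Phi p) := hF.comp continuous_Phi
  have hc2 : Continuous fun p : SU × (SU × SU) => F (p.2.1, p.2.1 * p.2.2 * p.1 * p.2.2⁻¹) := by
    fun_prop
  rw [integral_prod _ (integrable_of_continuous _ hc1)]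
  simp_rw [int_fixed _ F hF]
  rw [integral_integral_swap (f := fun (g : SU) (p : SU × SU) =>
    F (p.1, p.1 * p.2 * g * p.2⁻¹)) (integrable_of_continuous _ hc2)]
  have h1 : ∀ p : SU × SU, ∫ g, F (p.1, p.1 * p.2 * g * p.2⁻¹) ∂haarQ
      = ∫ g, F (p.1, g) ∂haarQ := by
    intro p
    rw [integral_mul_left_eq_self (μ := haarQ) (fun g => F (p.1, g * p.2⁻¹)) (p.1 * p.2),
      integral_mul_right_eq_self (μ := haarQ) (fun g => F (p.1, g)) p.2⁻¹]
  simp_rw [h1]
  have hc3 : Continuous fun p : SU × SU => ∫ g, F (p.1, g) ∂haarQ := by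
    have h2 := continuous_parametric_integral_of_continuous (μ := haarQ)
      (f := fun (p : SU × SU) (g : SU) => F (p.1, g)) (by fun_prop) (s := Set.univ)
      isCompact_univ
    simpa [Measure.restrict_univ] using h2
  rw [integral_prod _ (integrable_of_continuous _ hc3),
    integral_prod _ (integrable_of_continuous _ hF)]
  simp

lemma mp_Phi : MeasurePreserving Phi (haarQ.prod (haarQ.prod haarQ)) (haarQ.prod haarQ) := by
  refine ⟨continuous_Phi.measurable, ?_⟩
  have : IsProbabilityMeasure (Measure.map Phi (haarQ.prod (haarQ.prod haarQ))) :=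
    Measure.isProbabilityMeasure_map continuous_Phi.measurable.aemeasurable
  apply ext_of_forall_integral_eq_of_IsFiniteMeasure
  intro f
  rw [integral_map continuous_Phi.measurable.aemeasurable f.continuous.aestronglyMeasurable]
  exact int_Phi f f.continuous

end Pool.Agent.helper21.ON
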