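import Mathlib
import Pool.Agent.helper21.ON.Quat
import Pool.Agent.helper21.ON.Second

/-!
# The twist inequality for `N = 4`
-/

set_option linter.unusedSectionVars false

open MeasureTheory Quaternion ComplexConjugate
open scoped ComplexOrder

namespace Pool.Agent.helper21.ON

open Pool.Agent.helper71.XY.Defs
open Pool.Agent.helper71.XY (integrable_of_continuous PosClass)

/-- first complex coordinate -/
noncomputable def zz (q : SU) : ℂ := ⟨(q : ℍ[ℝ]).re, (q : ℍ[ℝ]).imI⟩

/-- second complex coordinate -/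
noncomputable def ww (q : SU) : ℂ := ⟨(q : ℍ[ℝ]).imJ, (q : ℍ[ℝ]).imK⟩

lemma zz_mul (p q : SU) : zz (p * q) = zz p * zz q - ww p * conj (ww q) := by
  unfold zz ww
  apply Complex.ext
  · simp
    ring
  · simp
    ring

lemma ww_mul (p q : SU) : ww (p * q) = zz p * ww q + ww p * conj (zz q) := by
  unfold zz ww
  apply Complex.ext
  · simp
    ring
  · simp
    ring

lemma coe_inv_SU (q : SU) : ((q⁻¹ : SU) : ℍ[ℝ]) = star (q : ℍ[ℝ]) := by
  change ((q : ℍ[ℝ]))⁻¹ = _
  rw [Quaternion.inv_def, Quaternion.normSq_eq_norm_mul_self, norm_SU]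
  simp

lemma zz_inv (q : SU) : zz q⁻¹ = conj (zz q) := by
  unfold zz
  rw [coe_inv_SU]
  apply Complex.ext <;> simp

lemma ww_inv (q : SU) : ww q⁻¹ = - ww q := by
  unfold ww
  rw [coe_inv_SU]
  apply Complex.ext <;> simp

lemma zz_hh (g : SU) : zz (hh g) = Cc g + Ss g * Complex.I := by
  unfold zz hh
  apply Complex.ext <;> simp

lemma ww_hh (g : SU) : ww (hh g) = 0 := by
  unfold ww hh
  apply Complex.ext <;> simp

lemma continuous_zz : Continuous zz := by
  have h1 : Continuous fun q : SU => (q : ℍ[ℝ]).re :=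
    Quaternion.continuous_re.comp continuous_subtype_val
  have h2 : Continuous fun q : SU => (q : ℍ[ℝ]).imI :=
    Quaternion.continuous_imI.comp continuous_subtype_val
  have : zz = fun q : SU => (((q : ℍ[ℝ]).re : ℝ) : ℂ) + (((q : ℍ[ℝ]).imI : ℝ) : ℂ) * Complex.I := by
    funext q
    unfold zz
    apply Complex.ext <;> simp
  rw [this]
  fun_prop

lemma continuous_ww : Continuous ww := by
  have h1 : Continuous fun q : SU => (q : ℍ[ℝ]).imJ :=
    Quaternion.continuous_imJ.comp continuous_subtype_val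
  have h2 : Continuous fun q : SU => (q : ℍ[ℝ]).imK :=
    Quaternion.continuous_imK.comp continuous_subtype_val
  have : ww = fun q : SU => (((q : ℍ[ℝ]).imJ : ℝ) : ℂ) + (((q : ℍ[ℝ]).imK : ℝ) : ℂ) * Complex.I := by
    funext q
    unfold ww
    apply Complex.ext <;> simp
  rw [this]
  fun_prop

lemma dot_toS (p q : SU) : ((dot (toS p) (toS q) : ℝ) : ℂ)
    = (zz p * conj (zz q) + conj (zz p) * zz q + ww p * conj (ww q) + conj (ww p) * ww q) / 2 := by
  have h : dot (toS p) (toS q) = (p : ℍ[ℝ]).re * (q : ℍ[ℝ]).re + (p : ℍ[ℝ]).imI * (q : ℍ[ℝ]).imI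
      + (p : ℍ[ℝ]).imJ * (q : ℍ[ℝ]).imJ + (p : ℍ[ℝ]).imK * (q : ℍ[ℝ]).imK := by
    rw [dot_eq_sum, Fin.sum_univ_four]
    rfl
  rw [h]
  unfold zz ww
  apply Complex.ext
  · simp
    ring
  · simp
    ring

/-- `cos (α/2) - sin (α/2)` -/
noncomputable def aa (g : SU) : ℝ := Cc g - Ss g

/-- `cos (α/2) + sin (α/2)` -/
noncomputable def bb (g : SU) : ℝ := Cc g + Ss g

lemma continuous_aa : Continuous aa := continuous_Cc.sub continuous_Ss

lemma continuous_bb : Continuous bb := continuous_Cc.add continuous_Ss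

/-- the left coefficients -/
noncomputable def ca (s : Fin 2) (g : SU) : ℝ := ![aa g, bb g] s

/-- the right coefficients -/
noncomputable def cb (s : Fin 2) (g : SU) : ℝ := ![bb g, aa g] s

/-- upper entries of the columns -/
noncomputable def up (s : Fin 2) (q : SU) : ℂ := ![zz q, ww q] s

/-- lower entries of the columns -/
noncomputable def lo (s : Fin 2) (q : SU) : ℂ := ![- conj (ww q), conj (zz q)] s

/-- the determinants of two columns -/
noncomputable def dd (s t : Fin 2) (p q : SU) : ℂ := up s p * lo t q - lo s p * up t q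

lemma continuous_up (s : Fin 2) : Continuous (up s) := by
  fin_cases s
  · exact continuous_zz
  · exact continuous_ww

lemma continuous_lo (s : Fin 2) : Continuous (lo s) := by
  fin_cases s
  · exact (Complex.continuous_conj.comp continuous_ww).neg
  · exact Complex.continuous_conj.comp continuous_zz

variable {V : Type} [Fintype V] [DecidableEq V]

/-- the parametrisation of all sites -/
noncomputable def Psi (P : (V → SU) × ((V → SU) × (V → SU))) (x : V) : Sph 4 × Sph 4 :=
  (toS (Phi (P.1 x, (P.2.1 x, P.2.2 x))).1, toS (Phi (P.1 x, (P.2.1 x, P.2.2 x))).2)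

lemma UD_eq (P : (V → SU) × ((V → SU) × (V → SU))) (x j : V) :
    ((U (Psi P) x j : ℝ) : ℂ) - Complex.I * ((D (Psi P) x j : ℝ) : ℂ)
      = ∑ s, ∑ t, ((ca s (P.1 x) * cb t (P.1 j) : ℝ) : ℂ) *
        (dd s t (P.2.1 x) (P.2.1 j) * conj (dd s t (P.2.2 x) (P.2.2 j))) := by
  unfold U D Psi Phi
  simp only [Complex.ofReal_add, Complex.ofReal_sub, dot_toS, zz_mul, ww_mul, zz_inv, ww_inv,
    zz_hh, ww_hh, Fin.sum_univ_two, ca, cb, dd, up, lo, aa, bb, map_add, map_sub, map_mul,
    map_neg, map_zero, Complex.conj_conj, Complex.conj_ofReal, Complex.conj_I, mul_zero,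
    Complex.ofReal_mul, Matrix.cons_val_zero, Matrix.cons_val_one]
  have hI : Complex.I ^ 2 = -1 := Complex.I_sq
  ring_nf
  simp only [hI]
  ring


/-! ### the measure -/

instance instProbPiHaarQ : IsProbabilityMeasure (Measure.pi fun _ : V => haarQ) :=
  Measure.pi.instIsProbabilityMeasure _

instance instSFinitePiHaarQ : SFinite (Measure.pi fun _ : V => haarQ) := by
  have h3 : SigmaFinite (Measure.pi fun _ : V => haarQ) := inferInstance
  exact instSFiniteOfSigmaFinite

/-- the product measure of the three fields -/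
noncomputable abbrev P3 (V : Type) [Fintype V] : Measure ((V → SU) × ((V → SU) × (V → SU))) :=
  (Measure.pi fun _ : V => haarQ).prod
    ((Measure.pi fun _ : V => haarQ).prod (Measure.pi fun _ : V => haarQ))

lemma continuous_Psi : Continuous (Psi (V := V)) := by
  unfold Psi
  apply continuous_pi
  intro x
  have h : Continuous fun P : (V → SU) × ((V → SU) × (V → SU)) =>
      Phi (P.1 x, (P.2.1 x, P.2.2 x)) := by
    apply continuous_Phi.comp
    fun_prop
  exact (continuous_toS.comp (continuous_fst.comp h)).prodMk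
    (continuous_toS.comp (continuous_snd.comp h))

lemma mp_Psi : MeasurePreserving (Psi (V := V)) (P3 V) (P2 4 V) := by
  have hs : MeasurePreserving (fun p : SU × (SU × SU) => (toS (Phi p).1, toS (Phi p).2))
      (haarQ.prod (haarQ.prod haarQ)) ((nu 4).prod (nu 4)) :=
    (mp_toS.prod mp_toS).comp mp_Phi
  have hpi := measurePreserving_pi (fun _ : V => haarQ.prod (haarQ.prod haarQ))
    (fun _ : V => (nu 4).prod (nu 4)) fun _ => hs
  have h1 := measurePreserving_arrowProdEquivProdArrow SU (SU × SU) V (fun _ => haarQ)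
    (fun _ => haarQ.prod haarQ)
  have h2 := measurePreserving_arrowProdEquivProdArrow SU SU V (fun _ => haarQ)
    (fun _ => haarQ)
  have h3 := (MeasurePreserving.id (Measure.pi fun _ : V => haarQ)).prod h2.symm
  exact hpi.comp (h1.symm.comp h3)

/-! ### the positive class -/

/-- the class of good functions -/
def Good (f : (V → SU) × ((V → SU) × (V → SU)) → ℂ) : Prop :=
  ∃ (m l : V → ℕ) (X : (V → SU) → ℂ), Continuous X ∧ f = fun P =>
    ((∏ x, aa (P.1 x) ^ m x * bb (P.1 x) ^ l x : ℝ) : ℂ) * (X P.2.1 * conj (X P.2.2))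

lemma Good.mul' {f g : (V → SU) × ((V → SU) × (V → SU)) → ℂ} (hf : Good f) (hg : Good g) :
    Good fun P => f P * g P := by
  obtain ⟨m, l, X, hX, rfl⟩ := hf
  obtain ⟨m', l', Y, hY, rfl⟩ := hg
  refine ⟨fun x => m x + m' x, fun x => l x + l' x, fun q => X q * Y q, hX.mul hY, ?_⟩
  funext P
  have h : (∏ x, aa (P.1 x) ^ (m x + m' x) * bb (P.1 x) ^ (l x + l' x))
      = (∏ x, aa (P.1 x) ^ m x * bb (P.1 x) ^ l x)
        * ∏ x, aa (P.1 x) ^ m' x * bb (P.1 x) ^ l' x := by
    rw [← Finset.prod_mul_distrib]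
    refine Finset.prod_congr rfl fun x _ => ?_
    rw [pow_add, pow_add]
    ring
  rw [h, map_mul]
  push_cast
  ring

lemma good_X (X : (V → SU) → ℂ) (hX : Continuous X) :
    Good fun P => X P.2.1 * conj (X P.2.2) :=
  ⟨fun _ => 0, fun _ => 0, X, hX, by simp⟩

lemma good_one : Good (V := V) fun _ => 1 :=
  ⟨fun _ => 0, fun _ => 0, fun _ => 1, continuous_const, by simp⟩

lemma good_aa (z : V) : Good (V := V) fun P => ((aa (P.1 z) : ℝ) : ℂ) := by
  refine ⟨fun x => if x = z then 1 else 0, fun _ => 0, fun _ => 1, continuous_const, ?_⟩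
  funext P
  rw [Finset.prod_eq_single z]
  · simp
  · intro x _ hx
    simp [hx]
  · simp

lemma good_bb (z : V) : Good (V := V) fun P => ((bb (P.1 z) : ℝ) : ℂ) := by
  refine ⟨fun _ => 0, fun x => if x = z then 1 else 0, fun _ => 1, continuous_const, ?_⟩
  funext P
  rw [Finset.prod_eq_single z]
  · simp
  · intro x _ hx
    simp [hx]
  · simp

lemma good_ca (s : Fin 2) (z : V) : Good (V := V) fun P => ((ca s (P.1 z) : ℝ) : ℂ) := by
  fin_cases s
  · exact good_aa z
  · exact good_bb z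

lemma good_cb (s : Fin 2) (z : V) : Good (V := V) fun P => ((cb s (P.1 z) : ℝ) : ℂ) := by
  fin_cases s
  · exact good_bb z
  · exact good_aa z

lemma re0_neg_one_mul (g : SU) : re0 (-1 * g) = - re0 g := by
  unfold re0
  have : ((-1 * g : SU) : ℍ[ℝ]) = (-1 : ℍ[ℝ]) * (g : ℍ[ℝ]) := rfl
  rw [this]
  simp

lemma aa_neg (g : SU) : aa (-1 * g) = - aa g := by
  unfold aa Cc Ss
  rw [re0_neg_one_mul, sub_neg_eq_add, ← sub_eq_add_neg]
  ring

lemma bb_neg (g : SU) : bb (-1 * g) = bb g := by
  unfold bb Cc Ss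
  rw [re0_neg_one_mul, sub_neg_eq_add, ← sub_eq_add_neg]
  ring

lemma bb_nonneg (g : SU) : 0 ≤ bb g := add_nonneg (Cc_nonneg g) (Ss_nonneg g)

lemma site_nonneg (m l : ℕ) : 0 ≤ ∫ g, aa g ^ m * bb g ^ l ∂haarQ := by
  rcases Nat.even_or_odd m with h | h
  · apply integral_nonneg
    intro g
    exact mul_nonneg (h.pow_nonneg _) (pow_nonneg (bb_nonneg g) _)
  · have h1 := integral_mul_left_eq_self (μ := haarQ) (fun g => aa g ^ m * bb g ^ l) (-1)
    simp only [aa_neg, bb_neg, h.neg_pow, neg_mul] at h1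
    rw [integral_neg] at h1
    linarith

lemma posGood : PosClass (P3 V) (Good (V := V)) where
  one := good_one
  mul _ _ hf hg := hf.mul' hg
  cont f hf := by
    obtain ⟨m, l, X, hX, rfl⟩ := hf
    have h1 := continuous_aa
    have h2 := continuous_bb
    have h3 : Continuous fun P : (V → SU) × ((V → SU) × (V → SU)) =>
        ∏ x, aa (P.1 x) ^ m x * bb (P.1 x) ^ l x := by
      fun_prop
    have h4 : Continuous fun P : (V → SU) × ((V → SU) × (V → SU)) =>
        X P.2.1 * conj (X P.2.2) :=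
      (hX.comp (continuous_fst.comp continuous_snd)).mul
        (Complex.continuous_conj.comp (hX.comp (continuous_snd.comp continuous_snd)))
    exact (Complex.continuous_ofReal.comp h3).mul h4
  pos f hf := by
    obtain ⟨m, l, X, hX, rfl⟩ := hf
    rw [P3, integral_prod_mul
      (f := fun G : V → SU => ((∏ x, aa (G x) ^ m x * bb (G x) ^ l x : ℝ) : ℂ))
      (g := fun P : (V → SU) × (V → SU) => X P.1 * conj (X P.2)),
      integral_prod_mul (f := X) (g := fun q => conj (X q))]
    apply mul_nonneg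
    · rw [integral_complex_ofReal, Complex.zero_le_real,
        integral_fintype_prod_eq_prod (f := fun x g => aa g ^ m x * bb g ^ l x)]
      exact Finset.prod_nonneg fun x _ => site_nonneg _ _
    · rw [integral_conj, Complex.mul_conj, Complex.zero_le_real]
      exact Complex.normSq_nonneg _

/-! ### the twist inequality -/

/-- the generators -/
noncomputable def gen (i : V × V × Fin 2 × Fin 2 × Fin 2)
    (P : (V → SU) × ((V → SU) × (V → SU))) : ℂ :=
  ((ca i.2.2.1 (P.1 i.1) : ℝ) : ℂ) * ((cb i.2.2.2.1 (P.1 i.2.1) : ℝ) : ℂ) *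
    ![dd i.2.2.1 i.2.2.2.1 (P.2.1 i.1) (P.2.1 i.2.1) *
        conj (dd i.2.2.1 i.2.2.2.1 (P.2.2 i.1) (P.2.2 i.2.1)),
      conj (dd i.2.2.1 i.2.2.2.1 (P.2.1 i.1) (P.2.1 i.2.1)) *
        conj (conj (dd i.2.2.1 i.2.2.2.1 (P.2.2 i.1) (P.2.2 i.2.1)))] i.2.2.2.2

/-- the coefficients -/
noncomputable def coef (J A : V → V → ℝ) (i : V × V × Fin 2 × Fin 2 × Fin 2) : ℂ :=
  ((J i.1 i.2.1 / 4 : ℝ) : ℂ) *
    Complex.exp (((![- A i.1 i.2.1, A i.1 i.2.1] i.2.2.2.2 : ℝ) : ℂ) * Complex.I)

lemma gen_good (i : V × V × Fin 2 × Fin 2 × Fin 2) : Good (gen i) := by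
  obtain ⟨x, j, s, t, u⟩ := i
  have hd : Continuous fun q : V → SU => dd s t (q x) (q j) := by
    unfold dd
    have h1 := continuous_up
    have h2 := continuous_lo
    have e1 : ∀ (s : Fin 2) (x : V), Continuous fun q : V → SU => up s (q x) :=
      fun s x => (h1 s).comp (continuous_apply x)
    have e2 : ∀ (s : Fin 2) (x : V), Continuous fun q : V → SU => lo s (q x) :=
      fun s x => (h2 s).comp (continuous_apply x)
    exact ((e1 s x).mul (e2 t j)).sub ((e2 s x).mul (e1 t j))
  fin_cases u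
  · exact ((good_ca s x).mul' (good_cb t j)).mul' (good_X (fun q => dd s t (q x) (q j)) hd)
  · exact ((good_ca s x).mul' (good_cb t j)).mul'
      (good_X (fun q => conj (dd s t (q x) (q j))) (Complex.continuous_conj.comp hd))

lemma TA_eq (J A : V → V → ℝ) (P : (V → SU) × ((V → SU) × (V → SU))) :
    ((TA J A (Psi P) : ℝ) : ℂ) = ∑ i, coef J A i * gen i P := by
  rw [Fintype.sum_prod_type]
  have h1 : TA J A (Psi P) = ∑ x, ∑ j,
      J x j * (Real.cos (A x j) * U (Psi P) x j - Real.sin (A x j) * D (Psi P) x j) / 2 := by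
    rw [TA, Finset.mul_sum]
    refine Finset.sum_congr rfl fun x _ => ?_
    rw [Finset.mul_sum]
    exact Finset.sum_congr rfl fun j _ => by ring
  rw [h1, Complex.ofReal_sum]
  refine Finset.sum_congr rfl fun x _ => ?_
  rw [Fintype.sum_prod_type, Complex.ofReal_sum]
  refine Finset.sum_congr rfl fun j _ => ?_
  have h2 := UD_eq P x j
  have h3 : ((U (Psi P) x j : ℝ) : ℂ) + Complex.I * ((D (Psi P) x j : ℝ) : ℂ)
      = ∑ s, ∑ t, ((ca s (P.1 x) * cb t (P.1 j) : ℝ) : ℂ) *
        (conj (dd s t (P.2.1 x) (P.2.1 j)) * dd s t (P.2.2 x) (P.2.2 j)) := by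
    have h4 := congrArg conj h2
    simp only [map_sub, map_mul, Complex.conj_I, Complex.conj_ofReal, map_sum,
      Complex.conj_conj] at h4
    rw [← h4]
    ring
  have h5 : ((J x j * (Real.cos (A x j) * U (Psi P) x j - Real.sin (A x j) * D (Psi P) x j) / 2
        : ℝ) : ℂ)
      = ((J x j / 4 : ℝ) : ℂ) * Complex.exp (((-A x j : ℝ) : ℂ) * Complex.I)
          * (((U (Psi P) x j : ℝ) : ℂ) - Complex.I * ((D (Psi P) x j : ℝ) : ℂ))
        + ((J x j / 4 : ℝ) : ℂ) * Complex.exp (((A x j : ℝ) : ℂ) * Complex.I)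
          * (((U (Psi P) x j : ℝ) : ℂ) + Complex.I * ((D (Psi P) x j : ℝ) : ℂ)) := by
    rw [Complex.exp_mul_I, Complex.exp_mul_I, ← Complex.ofReal_cos, ← Complex.ofReal_sin,
      ← Complex.ofReal_cos, ← Complex.ofReal_sin, Real.cos_neg, Real.sin_neg]
    apply Complex.ext
    · simp
      ring
    · simp
      ring
  rw [h5, h2, h3]
  simp only [Fintype.sum_prod_type, Fin.sum_univ_two, coef, gen, Complex.conj_conj,
    Matrix.cons_val_zero, Matrix.cons_val_one, Complex.ofReal_mul]
  ring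

lemma norm_coef (J A : V → V → ℝ) (hJ : ∀ x j, 0 ≤ J x j) (i : V × V × Fin 2 × Fin 2 × Fin 2) :
    ((‖coef J A i‖ : ℝ) : ℂ) = coef J (fun _ _ => 0) i := by
  have h := hJ i.1 i.2.1
  rw [coef, norm_mul, Complex.norm_exp_ofReal_mul_I, Complex.norm_real,
    Real.norm_of_nonneg (by positivity), mul_one]
  obtain ⟨x, j, s, t, u⟩ := i
  fin_cases u <;> simp [coef]

theorem twist4 (J : V → V → ℝ) (hJ : ∀ x j, 0 ≤ J x j) : Twist 4 J := by
  intro A
  have key : ∀ B : V → V → ℝ, ∫ ω, Real.exp (TA J B ω) ∂(P2 4 V)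
      = ∫ P, Real.exp (TA J B (Psi P)) ∂(P3 V) := by
    intro B
    have hc : Continuous fun ω : V → Sph 4 × Sph 4 => Real.exp (TA J B ω) :=
      Real.continuous_exp.comp (continuous_TA J B)
    conv_lhs => rw [← (mp_Psi (V := V)).map_eq]
    rw [integral_map (f := fun ω : V → Sph 4 × Sph 4 => Real.exp (TA J B ω))
      continuous_Psi.measurable.aemeasurable hc.aestronglyMeasurable]
  have h := ((posGood (V := V)).exp_bound (coef J A) gen gen_good (fun _ => 1) good_one).1
  simp_rw [norm_coef J A hJ, ← TA_eq, mul_one, ← Complex.ofReal_exp] at h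
  rw [integral_complex_ofReal, integral_complex_ofReal, Complex.ofReal_re,
    Complex.norm_real] at h
  rw [key A]
  have h2 := key fun _ _ => 0
  rw [show (∫ ω, Real.exp (T0 J ω) ∂(P2 4 V)) = ∫ P, Real.exp (T0 J (Psi P)) ∂(P3 V) from h2]
  exact (le_abs_self _).trans h

end Pool.Agent.helper21.ON
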