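import Mathlib
import Pool.Agent.helper21.ON.Gks
import Pool.Agent.helper21.ON.Boot
import Pool.Agent.helper21.ON.Pos
import Pool.Agent.helper71.XY.Pin

/-!
# Long-range order for `O(N)` spins from the twist inequality
-/

set_option linter.unusedSectionVars false

open MeasureTheory
open scoped ENNReal

namespace Pool.Agent.helper21.ON

open Pool.Agent.helper71.XY.Defs
open Pool.Agent.helper71.XY (integrable_of_continuous JH JH_nonneg)
open Pool.Agent.helper36.IsingDefs (greenMax)

variable {N : ℕ} [NeZero N] {V : Type} [Fintype V] [DecidableEq V]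

lemma pi_surf_smul : (Measure.pi fun _ : V => surf N)
    = (surf N Set.univ ^ Fintype.card V) • P1 N V := by
  apply Measure.pi_eq
  intro s _
  rw [Measure.smul_apply, Measure.pi_pi, smul_eq_mul]
  conv_rhs => rw [surf_eq_smul (N := N)]
  simp only [Measure.smul_apply, smul_eq_mul]
  rw [Finset.prod_mul_distrib, Finset.prod_const, Finset.card_univ]

lemma pi_surf (f : (V → Sph N) → ℝ) :
    ∫ σ, f σ ∂(Measure.pi fun _ : V => surf N)
      = (surf N Set.univ).toReal ^ (Fintype.card V) * ∫ σ, f σ ∂(P1 N V) := by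
  rw [pi_surf_smul, integral_smul_measure, ENNReal.toReal_pow, smul_eq_mul]

lemma weight_eq (G : SimpleGraph V) [DecidableRel G.Adj] (β : ℝ) (y : V) (σ : V → Sph N) :
    Real.exp (β * interaction G σ) = W (JH G β y 0) σ := by
  unfold interaction W JH
  rw [Pool.Agent.helper71.XY.sum_edges]
  congr 1
  simp only [zero_mul, add_zero, Finset.mul_sum]
  refine Finset.sum_congr rfl fun x _ => Finset.sum_congr rfl fun j _ => ?_
  ring

theorem twoPoint_eq (G : SimpleGraph V) [DecidableRel G.Adj] (β : ℝ) (x y : V) :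
    twoPoint G N β x y = cc N (JH G β y 0) x y := by
  unfold twoPoint cc Id II
  rw [pi_surf, pi_surf]
  have hc : (surf N Set.univ).toReal ^ Fintype.card V ≠ 0 :=
    pow_ne_zero _ (ENNReal.toReal_ne_zero.2 ⟨surf_univ_ne_zero, surf_univ_ne_top⟩)
  rw [mul_div_mul_left _ _ hc]
  simp only [weight_eq G β y, mul_one]
  congr 2
  funext σ
  ring

/-- The twist inequality for all `J_H` implies long-range order. -/
theorem main_of_twist (G : SimpleGraph V) [DecidableRel G.Adj]
    (hconn : G.Connected) (hcard : 2 ≤ Fintype.card V) (M : ℝ) (hM : 0 < M)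
    (hG : greenMax G ≤ ENNReal.ofReal M) (β : ℝ) (hβM : 4 * N * M < β) (x y : V)
    (hT : ∀ H : ℝ, 0 ≤ H → Twist N (JH G β y H)) :
    1 - 5 * N * M / (4 * β) ≤ twoPoint G N β x y := by
  rw [twoPoint_eq]
  have hN : (0 : ℝ) < N := Nat.cast_pos.2 (Nat.pos_of_ne_zero (NeZero.ne N))
  have hβ : 0 < β := lt_trans (by positivity) hβM
  have hV : Nontrivial V := Fintype.one_lt_card_iff_nontrivial.1 (by omega)
  exact pos_of G hconn hV M hM.le hG hβ hβM y hT
    (fun x z => cc_nonneg _ (JH_nonneg G hβ.le le_rfl y) x z) x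

theorem main4 (G : SimpleGraph V) [DecidableRel G.Adj]
    (hconn : G.Connected) (hcard : 2 ≤ Fintype.card V) (M : ℝ) (hM : 0 < M)
    (hG : greenMax G ≤ ENNReal.ofReal M) (β : ℝ) (hβM : 16 * M < β) (x y : V) :
    1 - 5 * M / β ≤ twoPoint G 4 β x y := by
  have hβ : 0 < β := lt_trans (by positivity) hβM
  have h := main_of_twist (N := 4) G hconn hcard M hM hG β (by push_cast; linarith) x y
    (fun H hH => twist4 _ (JH_nonneg G hβ.le hH y))
  have h2 : 5 * ((4 : ℕ) : ℝ) * M / (4 * β) = 5 * M / β := by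
    push_cast
    field_simp
  rw [h2] at h
  exact h

end Pool.Agent.helper21.ON
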